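import Mathlib

namespace Pool.Agent.Lib.MP_a2b538_an.LP

open Finset Filter Topology

variable {𝕜 : Type} [RCLike 𝕜] {X : Type} [NormedAddCommGroup X] [NormedSpace 𝕜 X]

/-- a biorthogonal system with bounded greedy projections and unbounded partial sums -/
structure Mod {J : Type} [DecidableEq J] (e : J → X) (f : J → X →L[𝕜] 𝕜) (C : ℝ) : Prop where
  one : 1 ≤ C
  dense : Dense (Submodule.span 𝕜 (Set.range e) : Set X)
  bi : ∀ n k, f n (e k) = if n = k then 1 else 0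
  up : ∀ n, ‖e n‖ ≤ C
  co : ∀ n x, ‖f n x‖ ≤ C * ‖x‖
  gr : ∀ (x : X) (A : Finset J), (∀ n ∈ A, ∀ k, k ∉ A → ‖f k x‖ ≤ ‖f n x‖) →
    ‖∑ n ∈ A, f n x • e n‖ ≤ C * ‖x‖
  bad : ∀ (σ : ℕ ≃ J) (M : ℝ), ∃ (N : ℕ) (x : X),
    M * ‖x‖ < ‖∑ n ∈ range N, f (σ n) x • e (σ n)‖

theorem Mod.reindex {J : Type} [DecidableEq J] {e : J → X} {f : J → X →L[𝕜] 𝕜} {C : ℝ}
    (h : Mod e f C) (σ : ℕ ≃ J) : Mod (fun n => e (σ n)) (fun n => f (σ n)) C := by
  refine ⟨h.one, ?_, fun n k => by simp [h.bi], fun n => h.up _, fun n => h.co _, fun x A hA => ?_,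
    fun π M => h.bad (π.trans σ) M⟩
  · rw [show (Set.range fun n => e (σ n)) = Set.range e from σ.surjective.range_comp e]
    exact h.dense
  · have := h.gr x (A.map σ.toEmbedding) fun n hn k hk => by
      have := hA (σ.symm n) (by simpa using hn) (σ.symm k) (by simpa using hk)
      simpa using this
    rwa [sum_map] at this

theorem Mod.transfer {Y : Type} [NormedAddCommGroup Y] [NormedSpace 𝕜 Y] {e : ℕ → Y}
    {f : ℕ → Y →L[𝕜] 𝕜} {C : ℝ} (h : Mod e f C) (T : X ≃L[𝕜] Y) :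
    ∃ C', Mod (fun n => T.symm (e n)) (fun n => (f n).comp (T : X →L[𝕜] Y)) C' := by
  obtain ⟨K, hK, h1, h2⟩ : ∃ K, 1 ≤ K ∧ (∀ x, ‖T x‖ ≤ K * ‖x‖) ∧ ∀ y, ‖T.symm y‖ ≤ K * ‖y‖ := by
    have a1 := norm_nonneg (T : X →L[𝕜] Y)
    have a2 := norm_nonneg (T.symm : Y →L[𝕜] X)
    refine ⟨1 + ‖(T : X →L[𝕜] Y)‖ + ‖(T.symm : Y →L[𝕜] X)‖, by linarith, fun x => ?_, fun y => ?_⟩
    · exact ((T : X →L[𝕜] Y).le_opNorm x).trans
        (mul_le_mul_of_nonneg_right (by linarith) (norm_nonneg _))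
    · exact ((T.symm : Y →L[𝕜] X).le_opNorm y).trans
        (mul_le_mul_of_nonneg_right (by linarith) (norm_nonneg _))
  have hC := h.one
  have k1 : C ≤ K * C := by nlinarith
  have k2 : K * C ≤ K * C * K := by nlinarith
  refine ⟨K * C * K, by linarith, ?_, fun n k => by simp [h.bi], fun n => ?_, fun n x => ?_,
    fun x A hA => ?_, fun σ M => ?_⟩
  · refine (T.symm.surjective.denseRange.dense_image T.symm.continuous h.dense).mono ?_
    rintro _ ⟨y, hy, rfl⟩
    obtain ⟨c, rfl⟩ := Finsupp.mem_span_range_iff_exists_finsupp.1 hy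
    exact Finsupp.mem_span_range_iff_exists_finsupp.2 ⟨c, by simp [Finsupp.sum, map_sum]⟩
  · exact (h2 _).trans ((mul_le_mul_of_nonneg_left (h.up n) (by linarith)).trans k2)
  · refine (h.co n (T x)).trans ((mul_le_mul_of_nonneg_left (h1 x) (by linarith)).trans ?_)
    rw [← mul_assoc]
    exact mul_le_mul_of_nonneg_right (by nlinarith) (norm_nonneg _)
  · have := (h2 _).trans (mul_le_mul_of_nonneg_left ((h.gr (T x) A hA).trans
      (mul_le_mul_of_nonneg_left (h1 x) (by linarith))) (by linarith))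
    simpa [map_sum, mul_assoc] using this
  · obtain ⟨N, y, hy⟩ := h.bad σ (K * (|M| * K))
    refine ⟨N, T.symm y, lt_of_mul_lt_mul_left (a := K) ?_ (by linarith)⟩
    have a1 := h1 (T.symm (∑ n ∈ range N, f (σ n) y • e (σ n)))
    rw [T.apply_symm_apply] at a1
    have a2 : M * ‖T.symm y‖ ≤ |M| * (K * ‖y‖) :=
      mul_le_mul (le_abs_self M) (h2 y) (norm_nonneg _) (abs_nonneg M)
    have a3 := mul_le_mul_of_nonneg_left a2 (show 0 ≤ K by linarith)
    have a4 : K * (M * ‖T.symm y‖) < K * ‖T.symm (∑ n ∈ range N, f (σ n) y • e (σ n))‖ := by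
      linarith
    simpa [map_sum] using a4

variable {e : ℕ → X} {f : ℕ → X →L[𝕜] 𝕜} {C : ℝ}

theorem Mod.coord (h : Mod e f C) (A : Finset ℕ) (a : ℕ → 𝕜) (j : ℕ) :
    f j (∑ n ∈ A, a n • e n) = if j ∈ A then a j else 0 := by
  simp only [map_sum, map_smul, h.bi, smul_eq_mul, mul_ite, mul_one, mul_zero, sum_ite_eq]

theorem Mod.approx (h : Mod e f C) (x : X) {ε : ℝ} (hε : 0 < ε) :
    ∃ (B : Finset ℕ) (c : ℕ → 𝕜), ‖x - ∑ n ∈ B, c n • e n‖ < ε := by
  obtain ⟨y, h1, h2⟩ := h.dense.exists_dist_lt x hε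
  obtain ⟨c, rfl⟩ := Finsupp.mem_span_range_iff_exists_finsupp.1 h1
  exact ⟨c.support, c, by rwa [dist_eq_norm] at h2⟩

theorem Mod.finite_large (h : Mod e f C) (x : X) {δ : ℝ} (hδ : 0 < δ) :
    {k | δ ≤ ‖f k x‖}.Finite := by
  have hC := h.one
  obtain ⟨A, a, hA⟩ := h.approx x (show 0 < δ / C by positivity)
  refine A.finite_toSet.subset fun i hi => by_contra fun hn => ?_
  have c1 := h.co i (x - ∑ n ∈ A, a n • e n)
  rw [map_sub, h.coord, if_neg (fun h => hn (mem_coe.2 h)), sub_zero] at c1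
  have c2 : δ ≤ ‖f i x‖ := hi
  rw [lt_div_iff₀ (by linarith)] at hA
  linarith

theorem Mod.conv (h : Mod e f C) (x : X) (A : ℕ → Finset ℕ)
    (hA : ∀ N, ∀ n ∈ A N, ∀ k ∉ A N, ‖f k x‖ ≤ ‖f n x‖)
    (hex : ∀ j, f j x ≠ 0 → ∀ᶠ N in atTop, j ∈ A N) :
    Tendsto (fun N => ∑ n ∈ A N, f n x • e n) atTop (𝓝 x) := by
  have hC := h.one
  rw [Metric.tendsto_atTop']
  intro ε hε
  obtain ⟨B, c, hzn⟩ := h.approx x (show 0 < ε / (4 * C) by positivity)
  set δ : ℝ := ε / (4 * C) / (2 * C * (B.card + 1)) with hδ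
  have hδ0 : 0 < δ := by positivity
  set z := x - ∑ n ∈ B, c n • e n with hz
  let η : ℕ → 𝕜 := fun j => if δ ≤ ‖f j z‖ then 0 else (δ : 𝕜) - f j z
  have hη : ∀ j, ‖η j‖ ≤ 2 * δ := by
    intro j
    simp only [η]
    split_ifs with h1
    · simp; positivity
    · refine (norm_sub_le _ _).trans ?_
      rw [RCLike.norm_ofReal, abs_of_pos hδ0]
      linarith [not_le.mp h1]
  have hη2 : ∀ j, δ ≤ ‖f j z + η j‖ := by
    intro j
    simp only [η]
    split_ifs with h1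
    · simpa using h1
    · rw [add_sub_cancel, RCLike.norm_ofReal, abs_of_pos hδ0]
  set z' := z + ∑ n ∈ B, η n • e n with hz'
  have hz'n : 2 * C * ‖z'‖ < ε := by
    have a1 : ‖∑ n ∈ B, η n • e n‖ ≤ (B.card + 1) * (2 * δ * C) := by
      refine (norm_sum_le _ _).trans ((sum_le_card_nsmul B _ (2 * δ * C) fun j _ => ?_).trans ?_)
      · rw [norm_smul]
        exact mul_le_mul (hη j) (h.up j) (norm_nonneg _) (by positivity)
      · rw [nsmul_eq_mul]; gcongr; linarith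
    have a2 : (B.card + 1) * (2 * δ * C) = ε / (4 * C) := by rw [hδ]; field_simp
    have a3 := norm_add_le z (∑ n ∈ B, η n • e n)
    have a4 : ‖z'‖ < ε / (2 * C) := by
      have : ε / (2 * C) = ε / (4 * C) + ε / (4 * C) := by field_simp; ring
      linarith
    rwa [lt_div_iff₀' (by positivity)] at a4
  have hc1 : ∀ j ∈ B, f j z' = f j z + η j := fun j hj => by
    rw [hz', map_add, h.coord, if_pos hj]
  have hc2 : ∀ j ∉ B, f j z' = f j x := fun j hj => by
    rw [hz', map_add, h.coord, if_neg hj, hz, map_sub, h.coord, if_neg hj]; simp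
  have ev1 : ∀ᶠ N in atTop, ∀ j ∈ B, f j x ≠ 0 → j ∈ A N := by
    rw [eventually_all_finset]
    intro j _
    by_cases hj : f j x = 0
    · exact Eventually.of_forall fun N h => absurd hj h
    · exact (hex j hj).mono fun N hN _ => hN
  have ev2 : ∀ᶠ N in atTop, ∀ j ∈ {k | δ ≤ ‖f k x‖}, j ∈ A N := by
    rw [eventually_all_finite (h.finite_large x hδ0)]
    intro j hj
    apply hex
    intro h0
    simp only [Set.mem_ofPred_eq, h0, norm_zero] at hj
    linarith
  obtain ⟨N0, hN0⟩ := eventually_atTop.mp (ev1.and ev2)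
  refine ⟨N0, fun N hN => ?_⟩
  obtain ⟨g1, g2⟩ := hN0 N hN.le
  have e0 : ∀ a : ℕ → 𝕜, ∑ n ∈ A N ∪ B, f n (∑ n ∈ B, a n • e n) • e n = ∑ n ∈ B, a n • e n :=
    fun a => by
      rw [← sum_subset (subset_union_right (s₁ := A N)) fun j _ hj => by
        rw [h.coord, if_neg hj, zero_smul]]
      exact sum_congr rfl fun j hj => by rw [h.coord, if_pos hj]
  have e1 : x - ∑ n ∈ A N, f n x • e n = z' - ∑ n ∈ A N ∪ B, f n z' • e n := by
    rw [sum_subset (subset_union_left (s₂ := B)) fun j hj hj' => by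
      have : f j x = 0 := by_contra fun c => hj' (g1 j ((mem_union.1 hj).resolve_left hj') c)
      rw [this, zero_smul]]
    rw [hz', hz]
    simp only [map_add, map_sub, add_smul, sub_smul, sum_add_distrib, sum_sub_distrib, e0]
    abel
  have e2 := h.gr z' (A N ∪ B) (by
    intro n hn k hk
    rw [mem_union] at hn hk
    push Not at hk
    rw [hc2 k hk.2]
    by_cases h2 : n ∈ B
    · rw [hc1 n h2]
      refine le_trans ?_ (hη2 n)
      by_contra h3
      exact hk.1 (g2 k (not_le.mp h3).le)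
    · rw [hc2 n h2]
      exact hA N n (hn.resolve_right h2) k hk.1)
  rw [dist_comm, dist_eq_norm, e1]
  have := mul_le_mul_of_nonneg_right hC (norm_nonneg z')
  linarith [norm_sub_le z' (∑ n ∈ A N ∪ B, f n z' • e n)]

theorem Mod.quasi (h : Mod e f C) (x : X) (D : Set ℕ) (ρ : ℕ → ℕ)
    (hinj : Set.InjOn ρ D) (him : ρ '' D = {n | f n x ≠ 0})
    (hmono : ∀ j ∈ D, ∀ k ∈ D, j < k → ‖f (ρ k) x‖ ≤ ‖f (ρ j) x‖) :
    Tendsto (fun N => ∑ j ∈ range N, D.indicator (fun j => f (ρ j) x • e (ρ j)) j) atTop (𝓝 x) := by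
  classical
  have := h.conv x (fun N => ((range N).filter (· ∈ D)).image ρ) ?_ ?_
  · refine this.congr fun N => ?_
    rw [sum_image (fun a ha b hb hab => hinj (mem_filter.mp ha).2 (mem_filter.mp hb).2 hab),
      sum_filter]
    exact sum_congr rfl fun j _ => by rw [Set.indicator_apply]
  · intro N n hn k hk
    obtain ⟨j, hj, rfl⟩ := mem_image.mp hn
    rw [mem_filter, mem_range] at hj
    by_cases h0 : f k x = 0
    · rw [h0]; simp
    · have : k ∈ ρ '' D := by rw [him]; exact h0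
      obtain ⟨i, hi, rfl⟩ := this
      apply hmono j hj.2 i hi
      by_contra hij
      exact hk (mem_image.mpr ⟨i, mem_filter.mpr ⟨mem_range.mpr (by omega), hi⟩, rfl⟩)
  · intro j hj
    have : j ∈ ρ '' D := by rw [him]; exact hj
    obtain ⟨i, hi, rfl⟩ := this
    filter_upwards [eventually_gt_atTop i] with N hN
    exact mem_image.mpr ⟨i, mem_filter.mpr ⟨mem_range.mpr hN, hi⟩, rfl⟩

theorem Mod.not_schauder [CompleteSpace X] (h : Mod e f C) (σ : ℕ ≃ ℕ) :
    ¬ ∀ x : X, ∃ a : ℕ → 𝕜, Tendsto (fun N => ∑ n ∈ range N, a n • e (σ n)) atTop (𝓝 x) := by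
  intro hS
  let P : ℕ → X →L[𝕜] X := fun N => ∑ n ∈ range N, (f (σ n)).smulRight (e (σ n))
  have hP : ∀ N x, P N x = ∑ n ∈ range N, f (σ n) x • e (σ n) := fun N x => by simp [P]
  have hconv : ∀ x, Tendsto (fun N => P N x) atTop (𝓝 x) := by
    intro x
    obtain ⟨a, ha⟩ := hS x
    have : ∀ n, a n = f (σ n) x := by
      intro n
      have h1 := ((f (σ n)).continuous.tendsto x).comp ha
      have h2 : ∀ᶠ N in atTop, (f (σ n) ∘ fun N => ∑ k ∈ range N, a k • e (σ k)) N = a n := by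
        filter_upwards [eventually_gt_atTop n] with N hN
        simp [h.bi, hN]
      exact tendsto_nhds_unique (tendsto_const_nhds.congr' (h2.mono fun N hN => hN.symm)) h1
    simp only [hP, ← this]
    exact ha
  obtain ⟨M, hM⟩ := banach_steinhaus (g := P) (fun x => by
    obtain ⟨C, hC⟩ := (hconv x).norm.bddAbove_range
    exact ⟨C, fun N => hC ⟨N, rfl⟩⟩)
  obtain ⟨N, x, hx⟩ := h.bad σ M
  rw [← hP] at hx
  exact absurd (((P N).le_opNorm x).trans (mul_le_mul_of_nonneg_right (hM N) (norm_nonneg _)))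
    (not_le.2 hx)

end Pool.Agent.Lib.MP_a2b538_an.LP
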