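import Mathlib

namespace Pool.Agent.Lib.MP_a2b538_an.LP

open Finset

variable {𝕜 : Type} [RCLike 𝕜] {V W B : Type}

/-- sum of `p`-th powers -/
noncomputable def En [Fintype V] (p : ℝ) (v : V → 𝕜) : ℝ := ∑ j, ‖v j‖ ^ p

/-- the `p`-norm -/
noncomputable def nrm [Fintype V] (p : ℝ) (v : V → 𝕜) : ℝ := En p v ^ (1 / p)

/-- sum of squares -/
noncomputable def sq2 [Fintype V] (v : V → 𝕜) : ℝ := ∑ j, ‖v j‖ ^ 2

/-- a real matrix applied to a vector -/
noncomputable def ap [Fintype V] (g : B → V → ℝ) (x : V → 𝕜) : B → 𝕜 :=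
  fun b => ∑ v, (g b v : 𝕜) * x v

/-- restriction to a finite set -/
def cut [DecidableEq V] (G : Finset V) (a : V → 𝕜) : V → 𝕜 := fun j => if j ∈ G then a j else 0

theorem rpow_add_le {a b p : ℝ} (ha : 0 ≤ a) (hb : 0 ≤ b) (hp : 0 ≤ p) :
    (a + b) ^ p ≤ 2 ^ p * (a ^ p + b ^ p) := by
  have h1 : 0 ≤ a ^ p := by positivity
  have h2 : 0 ≤ b ^ p := by positivity
  have h3 : (0 : ℝ) < 2 ^ p := by positivity
  rcases le_total a b with h | h
  · calc (a + b) ^ p ≤ (2 * b) ^ p := by gcongr; linarith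
      _ = 2 ^ p * b ^ p := Real.mul_rpow (by norm_num) hb
      _ ≤ _ := by nlinarith
  · calc (a + b) ^ p ≤ (2 * a) ^ p := by gcongr; linarith
      _ = 2 ^ p * a ^ p := Real.mul_rpow (by norm_num) ha
      _ ≤ _ := by nlinarith

theorem rpow_conv {a b p : ℝ} (ha : 0 ≤ a) (hb : 0 ≤ b) (hp : 1 ≤ p) :
    (9 / 10 * (a + b)) ^ p ≤ 9 / 10 * a ^ p + 9 ^ p * b ^ p := by
  have h := (convexOn_rpow hp).2 (x := a) (y := 9 * b) ha (show 0 ≤ 9 * b by positivity)
    (show (0 : ℝ) ≤ 9 / 10 by norm_num) (show (0 : ℝ) ≤ 1 / 10 by norm_num) (by norm_num)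
  simp only [smul_eq_mul] at h
  rw [Real.mul_rpow (x := 9) (by norm_num) hb, show 9 / 10 * a + 1 / 10 * (9 * b) =
    9 / 10 * (a + b) by ring] at h
  have : 0 ≤ 9 ^ p * b ^ p := by positivity
  linarith

theorem sum_rpow_le {T : Type} (s : Finset T) (x : T → ℝ) (hx : ∀ i, 0 ≤ x i) {r : ℝ}
    (hr : 1 ≤ r) : ∑ i ∈ s, x i ^ r ≤ (∑ i ∈ s, x i) ^ r := by
  classical
  induction s using Finset.induction_on with
  | empty => simp; positivity
  | insert i s hi ih =>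
    rw [sum_insert hi, sum_insert hi]
    exact (add_le_add le_rfl ih).trans
      (Real.add_rpow_le_rpow_add (hx i) (sum_nonneg fun j _ => hx j) hr)

theorem sq_rpow_half {x : ℝ} (hx : 0 ≤ x) (p : ℝ) : (x ^ 2) ^ (p / 2) = x ^ p := by
  rw [← Real.rpow_natCast, ← Real.rpow_mul hx]
  congr 1
  push_cast; ring

section
variable [Fintype V] {p : ℝ}

theorem En_nonneg (v : V → 𝕜) : 0 ≤ En p v := sum_nonneg fun _ _ => by positivity

theorem sq2_nonneg (v : V → 𝕜) : 0 ≤ sq2 v := sum_nonneg fun _ _ => by positivity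

theorem nrm_nonneg (v : V → 𝕜) : 0 ≤ nrm p v := Real.rpow_nonneg (En_nonneg v) _

theorem nrm_rpow (hp : 0 < p) (v : V → 𝕜) : nrm p v ^ p = En p v := by
  rw [nrm, ← Real.rpow_mul (En_nonneg v), one_div_mul_cancel hp.ne', Real.rpow_one]

theorem nrm_le_iff (hp : 0 < p) (v : V → 𝕜) {t : ℝ} (ht : 0 ≤ t) :
    nrm p v ≤ t ↔ En p v ≤ t ^ p := by
  rw [← nrm_rpow hp, Real.rpow_le_rpow_iff (nrm_nonneg v) ht hp]

theorem le_nrm_iff (hp : 0 < p) (v : V → 𝕜) {t : ℝ} (ht : 0 ≤ t) :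
    t ≤ nrm p v ↔ t ^ p ≤ En p v := by
  rw [← nrm_rpow hp, Real.rpow_le_rpow_iff ht (nrm_nonneg v) hp]

theorem En_add_le (hp : 0 ≤ p) (u v : V → 𝕜) : En p (u + v) ≤ 2 ^ p * (En p u + En p v) := by
  unfold En
  rw [← sum_add_distrib, mul_sum]
  exact sum_le_sum fun j _ => (Real.rpow_le_rpow (norm_nonneg _) (norm_add_le _ _) hp).trans
    (rpow_add_le (norm_nonneg _) (norm_nonneg _) hp)

theorem En_sub_le (hp : 0 ≤ p) (u v : V → 𝕜) : En p (u - v) ≤ 2 ^ p * (En p u + En p v) := by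
  unfold En
  rw [← sum_add_distrib, mul_sum]
  exact sum_le_sum fun j _ => (Real.rpow_le_rpow (norm_nonneg _) (norm_sub_le _ _) hp).trans
    (rpow_add_le (norm_nonneg _) (norm_nonneg _) hp)

theorem En_zero (hp : 0 < p) : En p (0 : V → 𝕜) = 0 := by simp [En, hp.ne']

theorem En_le_sq2 (hp : 2 ≤ p) (v : V → 𝕜) : En p v ≤ sq2 v ^ (p / 2) := by
  refine le_trans (le_of_eq ?_) (sum_rpow_le univ (fun j => ‖v j‖ ^ 2) (fun _ => by positivity)
    (show 1 ≤ p / 2 by linarith))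
  exact sum_congr rfl fun j _ => (sq_rpow_half (norm_nonneg _) p).symm

theorem sq2_add_le (u v : V → 𝕜) : sq2 (u + v) ≤ 2 * sq2 u + 2 * sq2 v := by
  unfold sq2
  rw [mul_sum, mul_sum, ← sum_add_distrib]
  refine sum_le_sum fun j _ => ?_
  have := pow_le_pow_left₀ (norm_nonneg _) (norm_add_le (u j) (v j)) 2
  simp only [Pi.add_apply]
  nlinarith [sq_nonneg (‖u j‖ - ‖v j‖)]

theorem sq2_sub_le (u v : V → 𝕜) : sq2 (u - v) ≤ 2 * sq2 u + 2 * sq2 v := by
  unfold sq2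
  rw [mul_sum, mul_sum, ← sum_add_distrib]
  refine sum_le_sum fun j _ => ?_
  have := pow_le_pow_left₀ (norm_nonneg _) (norm_sub_le (u j) (v j)) 2
  simp only [Pi.sub_apply]
  nlinarith [sq_nonneg (‖u j‖ - ‖v j‖)]

theorem sq2_mono {u v : V → 𝕜} (h : ∀ j, ‖u j‖ ≤ ‖v j‖) : sq2 u ≤ sq2 v :=
  sum_le_sum fun j _ => pow_le_pow_left₀ (norm_nonneg _) (h j) 2

theorem holder {q : ℝ} (h : p.HolderConjugate q) (u v : V → 𝕜) :
    ‖∑ j, u j * v j‖ ≤ nrm p u * nrm q v := by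
  refine (norm_sum_le _ _).trans ?_
  simp only [norm_mul]
  exact Real.inner_le_Lp_mul_Lq_of_nonneg univ h (fun _ _ => norm_nonneg _)
    fun _ _ => norm_nonneg _

omit [Fintype V] in
theorem exists_phase (a : V → 𝕜) : ∃ θ : V → 𝕜, ∀ j, ‖θ j‖ = 1 ∧ a j * θ j = (‖a j‖ : 𝕜) := by
  have : ∀ j, ∃ θ : 𝕜, ‖θ‖ = 1 ∧ a j * θ = (‖a j‖ : 𝕜) := by
    intro j
    by_cases h : a j = 0
    · exact ⟨1, by simp, by simp [h]⟩
    · exact ⟨‖a j‖ / a j, by simp [h], by field_simp⟩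
  choose θ hθ using this
  exact ⟨θ, hθ⟩

theorem nrm_le_of_dual {q L : ℝ} (h : p.HolderConjugate q) (hL : 0 ≤ L) (u : V → 𝕜)
    (hu : ∀ v : V → 𝕜, ‖∑ j, u j * v j‖ ≤ L * nrm q v) : nrm p u ≤ L := by
  obtain ⟨θ, hθ⟩ := exists_phase u
  have hp := h.pos
  have h1 := hu fun j => θ j * ((‖u j‖ ^ (p - 1) : ℝ) : 𝕜)
  have e1 : ∑ j, u j * (θ j * ((‖u j‖ ^ (p - 1) : ℝ) : 𝕜)) = (En p u : ℝ) := by
    unfold En
    push_cast
    refine sum_congr rfl fun j _ => ?_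
    rw [← mul_assoc, (hθ j).2, ← RCLike.ofReal_mul]
    congr 1
    rw [← Real.rpow_one_add' (norm_nonneg _) (by linarith)]
    congr 1; ring
  have e2 : En q (fun j => θ j * ((‖u j‖ ^ (p - 1) : ℝ) : 𝕜)) = En p u := by
    refine sum_congr rfl fun j _ => ?_
    rw [norm_mul, (hθ j).1, one_mul, RCLike.norm_ofReal, abs_of_nonneg (by positivity),
      ← Real.rpow_mul (norm_nonneg _), h.sub_one_mul_conj]
  rw [e1, nrm, e2, RCLike.norm_ofReal, abs_of_nonneg (En_nonneg u)] at h1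
  rcases (En_nonneg (p := p) u).eq_or_lt with h0 | h0
  · rw [nrm, ← h0, Real.zero_rpow (by positivity)]; exact hL
  · have e3 : En p u = nrm p u * En p u ^ (1 / q) := by
      rw [nrm, ← Real.rpow_add h0, one_div, one_div, h.inv_add_inv_eq_one, Real.rpow_one]
    nth_rewrite 1 [e3] at h1
    exact le_of_mul_le_mul_right h1 (by positivity)

theorem ap_add (g : B → V → ℝ) (x y : V → 𝕜) : ap g (x + y) = ap g x + ap g y := by
  funext b; simp [ap, mul_add, sum_add_distrib]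

theorem ap_sub (g : B → V → ℝ) (x y : V → 𝕜) : ap g (x - y) = ap g x - ap g y := by
  funext b; simp [ap, mul_sub, sum_sub_distrib]

theorem ap_zero (g : B → V → ℝ) : ap g (0 : V → 𝕜) = 0 := by
  funext b; simp [ap]

theorem ap_ap [Fintype W] (g : B → W → ℝ) (h : W → V → ℝ) (x : V → 𝕜) :
    ap g (ap h x) = ap (fun b v => ∑ w, g b w * h w v) x := by
  funext b
  simp only [ap, mul_sum, RCLike.ofReal_sum, sum_mul]
  rw [sum_comm]
  exact sum_congr rfl fun _ _ => sum_congr rfl fun _ _ => by push_cast; ring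

theorem ap_dual [Fintype B] (g : B → V → ℝ) (y : B → 𝕜) (x : V → 𝕜) :
    ∑ b, y b * ap g x b = ∑ v, ap (fun v b => g b v) y v * x v := by
  simp only [ap, mul_sum, sum_mul]
  rw [sum_comm]
  exact sum_congr rfl fun _ _ => sum_congr rfl fun _ _ => by ring

theorem ap_one [DecidableEq V] (x : V → 𝕜) : ap (fun a b => if a = b then 1 else 0) x = x := by
  funext b
  simp [ap, apply_ite]

theorem bessel [Fintype B] [DecidableEq B] (g : B → V → ℝ)
    (hg : ∀ b b', ∑ v, g b v * g b' v = if b = b' then 1 else 0) :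
    (∀ x : V → 𝕜, sq2 (ap g x) ≤ sq2 x) ∧ ∀ c : B → 𝕜, sq2 (ap (fun v b => g b v) c) ≤ sq2 c := by
  have key : ∀ c : B → 𝕜, sq2 (ap (fun v b => g b v) c) = sq2 c := by
    intro c
    have e1 : ∀ {T : Type} [Fintype T] (x : T → 𝕜), ((sq2 x : ℝ) : 𝕜) =
        ∑ j, (starRingEnd 𝕜) (x j) * x j := fun x => by
      simp only [sq2, RCLike.conj_mul]; push_cast; rfl
    have e2 : ∀ v, (starRingEnd 𝕜) (ap (fun v b => g b v) c v) =
        ap (fun v b => g b v) (fun b => (starRingEnd 𝕜) (c b)) v := fun v => by simp [ap]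
    apply RCLike.ofReal_injective (K := 𝕜)
    rw [e1, e1]
    simp only [e2]
    rw [← ap_dual, ap_ap]
    simp only [hg, ap_one]
  refine ⟨fun x => ?_, fun c => (key c).le⟩
  have h2 : (2 : ℝ).HolderConjugate 2 := Real.HolderConjugate.two_two
  have e1 : ∀ {T : Type} [Fintype T] (x : T → 𝕜), En 2 x = sq2 x := fun x => by simp [En, sq2]
  have := nrm_le_of_dual h2 (nrm_nonneg (p := 2) x) (ap g x) fun y => by
    simp only [mul_comm (ap g x _)]
    rw [ap_dual]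
    refine (holder h2 _ _).trans (le_of_eq ?_)
    rw [mul_comm, nrm, nrm, nrm, e1 (ap _ y), key, e1 y]
  rwa [nrm_le_iff two_pos _ (nrm_nonneg _), nrm_rpow two_pos, e1, e1] at this

end

end Pool.Agent.Lib.MP_a2b538_an.LP
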