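import Mathlib
import Pool.Agent.Lib.MP_a2b538_an.LP.Basic

namespace Pool.Agent.Lib.MP_a2b538_an.LP

open Finset Filter Topology
open scoped ENNReal

variable {𝕜 : Type} [RCLike 𝕜]

theorem exists_slots (p : ℝ≥0∞) [Fact (1 ≤ p)] (hp : p ≠ ∞) (W : ℕ → Type) [∀ m, Fintype (W m)]
    (hW : Nonempty (W 0)) :
    ∃ (emb : ∀ m : ℕ, ℕ → (W m → 𝕜) →ₗ[𝕜] lp (fun _ : ℕ => 𝕜) p)
      (res : ∀ m : ℕ, ℕ → lp (fun _ : ℕ => 𝕜) p →L[𝕜] (W m → 𝕜)),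
      (∀ m n n' v, res m n (emb m n' v) = if n = n' then v else 0) ∧
      (∀ m m' n n' v, m ≠ m' → res m n (emb m' n' v) = 0) ∧
      (∀ (F : Finset (ℕ × ℕ)) (g : ℕ → ℕ), Function.Injective g → ∀ x,
        ∑ b ∈ F, En p.toReal (res b.1 (g b.2) x) ≤ ‖x‖ ^ p.toReal) ∧
      (∀ (F : Finset (ℕ × ℕ)) (g : ℕ → ℕ), Function.Injective g → ∀ v : ∀ m : ℕ, ℕ → W m → 𝕜,
        ‖∑ b ∈ F, emb b.1 (g b.2) (v b.1 b.2)‖ ^ p.toReal = ∑ b ∈ F, En p.toReal (v b.1 b.2)) ∧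
      ∀ S : Submodule 𝕜 (lp (fun _ : ℕ => 𝕜) p), (∀ m n v, emb m n v ∈ S) →
        Dense (S : Set (lp (fun _ : ℕ => 𝕜) p)) := by
  classical
  have hp0 : 0 < p.toReal :=
    ENNReal.toReal_pos (zero_lt_one.trans_le (Fact.out : 1 ≤ p)).ne' hp
  have : Infinite (Σ b : ℕ × ℕ, W b.1) := Infinite.of_injective
    (fun n : ℕ => (⟨(0, n), hW.some⟩ : Σ b : ℕ × ℕ, W b.1)) fun a b h =>
      congrArg (fun x : Σ b : ℕ × ℕ, W b.1 => x.1.2) h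
  obtain ⟨σ⟩ : Nonempty ((Σ b : ℕ × ℕ, W b.1) ≃ ℕ) := nonempty_equiv_of_countable
  let emb : ∀ m : ℕ, ℕ → (W m → 𝕜) →ₗ[𝕜] lp (fun _ : ℕ => 𝕜) p := fun m n =>
    ∑ w, (lp.lsingle p (σ ⟨(m, n), w⟩)).comp (LinearMap.proj w)
  let res : ∀ m : ℕ, ℕ → lp (fun _ : ℕ => 𝕜) p →L[𝕜] (W m → 𝕜) := fun m n =>
    ContinuousLinearMap.pi fun w => lp.evalCLM 𝕜 (fun _ : ℕ => 𝕜) p (σ ⟨(m, n), w⟩)
  have e1 : ∀ m n v, emb m n v = ∑ w, lp.single p (σ ⟨(m, n), w⟩) (v w) := fun m n v => by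
    simp [emb]
  have e2 : ∀ m n x w, res m n x w = x (σ ⟨(m, n), w⟩) := fun _ _ _ _ => rfl
  have e3 : ∀ m n m' n' v w, res m n (emb m' n' v) w = ∑ w',
      if (⟨(m, n), w⟩ : Σ b : ℕ × ℕ, W b.1) = ⟨(m', n'), w'⟩ then v w' else 0 :=
    fun m n m' n' v w => by
      rw [e2, e1, lp.coeFn_sum, Finset.sum_apply]
      simp only [lp.single_apply, Pi.single_apply, σ.apply_eq_iff_eq]
  have inj : ∀ g : ℕ → ℕ, Function.Injective g → Function.Injective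
      fun a : Σ b : ℕ × ℕ, W b.1 => σ ⟨(a.1.1, g a.1.2), a.2⟩ := by
    rintro g hg ⟨⟨m, n⟩, w⟩ ⟨⟨m', n'⟩, w'⟩ h
    have h1 := σ.injective h
    obtain rfl : m = m' := congrArg (fun x : Σ b : ℕ × ℕ, W b.1 => x.1.1) h1
    obtain rfl : n = n' := hg (congrArg (fun x : Σ b : ℕ × ℕ, W b.1 => x.1.2) h1)
    obtain rfl : w = w' := by simpa using h1
    rfl
  refine ⟨emb, res, fun m n n' v => ?_, fun m m' n n' v h => ?_, fun F g hg x => ?_,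
    fun F g hg v => ?_, fun S hS => ?_⟩
  · funext w
    rw [e3]
    split_ifs with h
    · subst h; simp
    · simp [h]
  · funext w
    rw [e3]
    simp [h]
  · refine le_trans (le_of_eq ?_) (lp.sum_rpow_le_norm_rpow hp0 x
      ((F.sigma fun _ => univ).map ⟨_, inj g hg⟩))
    rw [sum_map, sum_sigma]
    rfl
  · have := lp.norm_sum_single hp0 (E := fun _ : ℕ => 𝕜) (Function.extend
      (fun a : Σ b : ℕ × ℕ, W b.1 => σ ⟨(a.1.1, g a.1.2), a.2⟩) (fun a => v a.1.1 a.1.2 a.2) 0)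
      ((F.sigma fun _ => univ).map ⟨_, inj g hg⟩)
    rw [sum_map, sum_map, sum_sigma, sum_sigma] at this
    have e4 : ∀ (b : ℕ × ℕ) (w : W b.1), Function.extend
        (fun a : Σ b : ℕ × ℕ, W b.1 => σ ⟨(a.1.1, g a.1.2), a.2⟩) (fun a => v a.1.1 a.1.2 a.2) 0
        (σ ⟨(b.1, g b.2), w⟩) = v b.1 b.2 w := fun b w => (inj g hg).extend_apply _ _ ⟨b, w⟩
    simp only [Function.Embedding.coeFn_mk, e4] at this
    simp only [e1]
    exact this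
  · intro x
    refine mem_closure_of_tendsto (lp.hasSum_single hp x) (Eventually.of_forall fun s => ?_)
    refine S.sum_mem fun i _ => ?_
    obtain ⟨⟨⟨m, n⟩, w⟩, rfl⟩ := σ.surjective i
    have := hS m n (Pi.single w (x (σ ⟨(m, n), w⟩)))
    rwa [e1, sum_eq_single w (fun b _ hb => by simp [hb]) (by simp), Pi.single_eq_same] at this

end Pool.Agent.Lib.MP_a2b538_an.LP
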