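import Mathlib
import Pool.Agent.Lib.MP_a2b538_an.LP.Basic

namespace Pool.Agent.Lib.MP_a2b538_an.LP

open Finset

theorem indep {L Z : Type} [Fintype L] [DecidableEq L] [Fintype Z] (l : L) (a : Z → ℝ)
    (G : (L → Z) → ℝ) (hG : ∀ v z, G (Function.update v l z) = G v) :
    Fintype.card Z * ∑ v, a (v l) * G v = (∑ z, a z) * ∑ v, G v := by
  have hi : Function.Involutive fun x : (L → Z) × Z => (Function.update x.1 l x.2, x.1 l) := by
    rintro ⟨v, z⟩; simp
  have h := Equiv.sum_comp hi.toPerm fun x => a (x.1 l) * G x.1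
  simp only [Function.Involutive.coe_toPerm, Function.update_self, hG, Fintype.sum_prod_type,
    sum_const, card_univ, nsmul_eq_mul] at h
  rw [mul_sum, ← h, mul_sum]
  exact sum_congr rfl fun v _ => (sum_mul _ _ _).symm

theorem design (m : ℕ) (hm : 0 < m) {ε : ℝ} (hε : 0 < ε) :
    ∃ (V : Type) (_ : Fintype V) (_ : DecidableEq V) (T : Type) (_ : Fintype T) (_ : DecidableEq T)
      (η : T × Fin m → V → ℝ) (ν : ℝ) (s : ℕ), 0 < ν ∧ Fintype.card V = 2 * s ∧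
      (∀ l v, η l v = 0 ∨ |η l v| = 1) ∧ (∀ l, ∑ v, η l v ^ 2 = (ν * 2 ^ (l.2 : ℕ)) ^ 2) ∧
      (∀ l l', l ≠ l' → ∑ v, η l v * η l' v = 0) ∧
      (∀ l l', l ≠ l' → ∑ v, η l v ^ 2 * η l' v ^ 2 ≤
        ε * ((ν * 2 ^ (l.2 : ℕ)) * (ν * 2 ^ (l'.2 : ℕ)))) ∧
      ∀ A : Finset V, A.card = s → ∃ τ, ∀ k : Fin m,
        (ν * 2 ^ (k : ℕ)) ^ 2 ≤ 4 * ∑ v ∈ A, η (τ, k) v ^ 2 ∧
          4 * ∑ v ∈ A, η (τ, k) v ^ 2 ≤ 3 * (ν * 2 ^ (k : ℕ)) ^ 2 := by
  obtain ⟨Q, hQ⟩ := exists_nat_ge (4 ^ m / ε + 2 * 4 ^ m)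
  have p1 : 0 < 4 ^ m / ε := by positivity
  have p2 : (0 : ℝ) < 4 ^ m := by positivity
  have hQ1 : 2 * 4 ^ m ≤ (Q : ℝ) := by linarith
  have hQ0 : (0 : ℝ) < Q := by linarith
  have hQ2 : 4 ^ m ≤ ε * Q := by rw [mul_comm, ← div_le_iff₀ hε]; linarith
  have hk : ∀ k : Fin m, (4 : ℝ) ^ (k : ℕ) ≤ 4 ^ m := fun k => by gcongr; exacts [by norm_num, k.2.le]
  let ψ : ℕ → Bool × Fin Q → ℝ := fun k z =>
    if (z.2 : ℕ) < 4 ^ k then (if z.1 then 1 else -1) else 0
  have q1 : ∀ k, ∑ z, ψ k z = 0 := fun k => by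
    rw [Fintype.sum_prod_type_right]
    exact sum_eq_zero fun z _ => by simp only [ψ, Fintype.sum_bool]; split_ifs <;> simp_all
  have q2 : ∀ k : Fin m, ∑ z, ψ k z ^ 2 = 2 * 4 ^ (k : ℕ) := fun k => by
    have e1 : ∀ z, ψ k z ^ 2 = if (z.2 : ℕ) < 4 ^ (k : ℕ) then 1 else 0 := fun z => by
      simp only [ψ]; split_ifs <;> simp
    have e2 : 4 ^ (k : ℕ) ≤ Q := by
      have : ((4 ^ (k : ℕ) : ℕ) : ℝ) ≤ Q := by push_cast; linarith [hk k]
      exact_mod_cast this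
    simp only [e1, Fintype.sum_prod_type, Fintype.sum_bool]
    rw [Fin.sum_univ_eq_sum_range (fun z => if z < 4 ^ (k : ℕ) then (1 : ℝ) else 0), sum_boole,
      show (range Q).filter (fun z => z < 4 ^ (k : ℕ)) = range (4 ^ (k : ℕ)) by
        ext z; simp only [mem_filter, mem_range]; omega, card_range]
    push_cast; ring
  let L := Fin (4 * Q + 1) × Fin m
  let V := L → Bool × Fin Q
  obtain ⟨N, hN⟩ : ∃ N : ℝ, N = (Fintype.card V : ℝ) := ⟨_, rfl⟩
  have cZ : (Fintype.card (Bool × Fin Q) : ℝ) = 2 * Q := by simp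
  have hN0 : 0 < N := by
    have : Nonempty (Fin Q) := ⟨⟨0, by exact_mod_cast hQ0⟩⟩
    rw [hN]; exact_mod_cast Fintype.card_pos
  have i1 : ∀ (l : L) (a : Bool × Fin Q → ℝ), ∑ v : V, a (v l) = (∑ z, a z) / (2 * Q) * N :=
    fun l a => by
      have := indep l a (fun _ => 1) fun _ _ => rfl
      simp only [mul_one, sum_const, card_univ, nsmul_eq_mul, cZ] at this
      rw [hN, div_mul_eq_mul_div, eq_div_iff (by positivity), mul_comm, this]
  have i2 : ∀ (l l' : L), l ≠ l' → ∀ a b : Bool × Fin Q → ℝ, ∑ v : V, a (v l) * b (v l') =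
      (∑ z, a z) / (2 * Q) * ((∑ z, b z) / (2 * Q)) * N := fun l l' h a b => by
    have := indep l a (fun v => b (v l')) fun v z => by
      simp only [Function.update_of_ne h.symm]
    rw [cZ, i1 l' b] at this
    rw [mul_assoc, div_mul_eq_mul_div, eq_div_iff (by positivity), mul_comm, this]
  have e0 : ∀ k : ℕ, (√(N / Q) * 2 ^ k) ^ 2 = 4 ^ k / Q * N := fun k => by
    rw [mul_pow, Real.sq_sqrt (by positivity), ← pow_mul, mul_comm k, pow_mul]; ring
  have e1 : ∀ l : L, ∑ v : V, ψ l.2 (v l) ^ 2 = 4 ^ (l.2 : ℕ) / Q * N := fun l => by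
    rw [i1 l fun z => ψ l.2 z ^ 2, q2]; field_simp
  obtain ⟨s, hs⟩ : 2 ∣ Fintype.card V := by
    have : Nonempty L := ⟨(0, ⟨0, hm⟩)⟩
    rw [Fintype.card_fun]
    exact dvd_pow (by simp) Fintype.card_ne_zero
  refine ⟨V, inferInstance, inferInstance, Fin (4 * Q + 1), inferInstance, inferInstance,
    fun l v => ψ l.2 (v l), √(N / Q), s, by positivity, hs, fun l v => ?_,
    fun l => by rw [e0, e1], fun l l' h => by rw [i2 l l' h, q1]; simp, fun l l' h => ?_,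
    fun A hA => ?_⟩
  · simp only [ψ]; split_ifs <;> simp
  · rw [i2 l l' h (fun z => ψ l.2 z ^ 2) fun z => ψ l'.2 z ^ 2, q2, q2, mul_mul_mul_comm,
      Real.mul_self_sqrt (by positivity)]
    have a1 : (2 : ℝ) ^ (l.2 : ℕ) * 2 ^ (l'.2 : ℕ) ≤ ε * Q := by
      refine le_trans ?_ hQ2
      rw [show (4 : ℝ) = 2 * 2 by norm_num, mul_pow]
      gcongr
      exacts [by norm_num, l.2.2.le, by norm_num, l'.2.2.le]
    have a2 := mul_le_mul_of_nonneg_right a1
      (show 0 ≤ N / Q * (2 ^ (l.2 : ℕ) * 2 ^ (l'.2 : ℕ)) / Q by positivity)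
    refine le_trans (le_of_eq ?_) (a2.trans (le_of_eq ?_))
    · rw [show (4 : ℝ) = 2 * 2 by norm_num, mul_pow, mul_pow]; field_simp
    · field_simp
  · by_contra hn
    push Not at hn
    let μ : L → ℝ := fun l => 4 ^ (l.2 : ℕ) / Q
    have μ0 : ∀ l, 1 / Q ≤ μ l := fun l => by
      simp only [μ]; gcongr; exact one_le_pow₀ (by norm_num)
    have μ1 : ∀ l, 0 < μ l := fun l => by positivity
    have μ2 : ∀ l, μ l ≤ 1 / 2 := fun l => by
      simp only [μ]; rw [div_le_iff₀ hQ0]; linarith [hk l.2]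
    let w : L → ℝ := fun l => N * (μ l * (1 - μ l))
    have w0 : ∀ l, 0 < w l := fun l => mul_pos hN0 (mul_pos (μ1 l) (by linarith [μ2 l]))
    have e2 : ∀ l : L, ∑ z, (ψ l.2 z ^ 2 - μ l) = 0 := fun l => by
      rw [sum_sub_distrib, q2, sum_const, card_univ, nsmul_eq_mul, cZ]
      simp only [μ]; field_simp; ring
    have hb := (bessel (𝕜 := ℝ) (fun (l : L) (v : V) => (ψ l.2 (v l) ^ 2 - μ l) / √(w l))
      fun l l' => by
        simp only [div_mul_div_comm, ← sum_div]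
        split_ifs with h
        · subst h
          rw [Real.mul_self_sqrt (w0 l).le, div_eq_one_iff_eq (w0 l).ne']
          have : ∀ v : V, (ψ l.2 (v l) ^ 2 - μ l) * (ψ l.2 (v l) ^ 2 - μ l) =
              (1 - 2 * μ l) * ψ l.2 (v l) ^ 2 + μ l ^ 2 := fun v => by
            simp only [ψ]; split_ifs <;> ring
          simp only [this]
          rw [sum_add_distrib, ← mul_sum, e1, sum_const, card_univ, nsmul_eq_mul, ← hN]
          simp only [w, μ]; ring
        · rw [i2 l l' h (fun z => ψ l.2 z ^ 2 - μ l) fun z => ψ l'.2 z ^ 2 - μ l', e2]; simp).1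
      fun v => (if v ∈ A then 1 else 0) - 1 / 2
    have e3 : sq2 (fun v : V => (if v ∈ A then (1 : ℝ) else 0) - 1 / 2) = N / 4 := by
      unfold sq2
      rw [sum_congr rfl (g := fun _ => (1 / 4 : ℝ)) fun v _ => by
          by_cases h : v ∈ A <;> norm_num [h],
        sum_const, card_univ, nsmul_eq_mul, ← hN]
      ring
    have hA' : (A.card : ℝ) = N / 2 := by rw [hN, hs, hA]; push_cast; ring
    have e4 : ∀ l : L, ‖ap (fun (l : L) (v : V) => (ψ l.2 (v l) ^ 2 - μ l) / √(w l))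
        (fun v => (if v ∈ A then (1 : ℝ) else 0) - 1 / 2) l‖ ^ 2 =
        (∑ v ∈ A, ψ l.2 (v l) ^ 2 - μ l * N / 2) ^ 2 / w l := fun l => by
      have : ∑ v : V, (ψ l.2 (v l) ^ 2 - μ l) * ((if v ∈ A then (1 : ℝ) else 0) - 1 / 2) =
          ∑ v ∈ A, ψ l.2 (v l) ^ 2 - μ l * N / 2 := by
        simp only [mul_sub, sum_sub_distrib, mul_ite, mul_one, mul_zero, sum_ite_mem, univ_inter,
          ← sum_mul, e1, sum_const, card_univ, nsmul_eq_mul, hA', ← hN]
        simp only [μ]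
        ring
      simp only [ap, RCLike.ofReal_real_eq_id, id, div_mul_eq_mul_div, ← sum_div, this,
        Real.norm_eq_abs, sq_abs, div_pow, Real.sq_sqrt (w0 l).le]
    rw [e3, sq2, Fintype.sum_prod_type] at hb
    have a1 : ∀ τ : Fin (4 * Q + 1), N / (16 * Q) ≤ ∑ k : Fin m,
        (∑ v ∈ A, ψ k (v (τ, k)) ^ 2 - μ (τ, k) * N / 2) ^ 2 / w (τ, k) := fun τ => by
      obtain ⟨k, hk⟩ := hn τ
      refine le_trans ?_ (single_le_sum (f := fun k : Fin m =>
        (∑ v ∈ A, ψ k (v (τ, k)) ^ 2 - μ (τ, k) * N / 2) ^ 2 / w (τ, k))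
        (fun k _ => div_nonneg (sq_nonneg _) (w0 _).le) (mem_univ k))
      rw [e0] at hk
      change μ (τ, k) * N ≤ _ → 3 * (μ (τ, k) * N) < _ at hk
      have b0 := μ0 (τ, k)
      have b1 := μ1 (τ, k)
      have b2 : (μ (τ, k) * N / 4) ^ 2 ≤ (∑ v ∈ A, ψ k (v (τ, k)) ^ 2 - μ (τ, k) * N / 2) ^ 2 := by
        rw [sq_le_sq, abs_of_pos (by positivity), le_abs]
        by_cases c : μ (τ, k) * N ≤ 4 * ∑ v ∈ A, ψ k (v (τ, k)) ^ 2
        · left; linarith [hk c]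
        · right; linarith [not_le.1 c]
      rw [le_div_iff₀ (w0 _)]
      refine le_trans ?_ b2
      have b3 : w (τ, k) ≤ N * μ (τ, k) := by
        simp only [w]; gcongr; nlinarith
      calc N / (16 * Q) * w (τ, k) = N / 16 * (1 / Q) * w (τ, k) := by field_simp
        _ ≤ N / 16 * μ (τ, k) * (N * μ (τ, k)) := by have := (w0 (τ, k)).le; gcongr
        _ = _ := by ring
    simp only [e4] at hb
    have a2 := (sum_le_sum fun τ (_ : τ ∈ univ) => a1 τ).trans hb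
    rw [sum_const, card_univ, Fintype.card_fin, nsmul_eq_mul, ← mul_div_assoc,
      div_le_iff₀ (by positivity)] at a2
    push_cast at a2
    nlinarith

end Pool.Agent.Lib.MP_a2b538_an.LP
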