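import Mathlib
import Pool.Agent.Lib.MP_a2b538_an.LP.Basic

namespace Pool.Agent.Lib.MP_a2b538_an.LP

open Finset

variable {𝕜 : Type} [RCLike 𝕜]

theorem clark (s a : 𝕜) {r : ℝ} (hr : 2 ≤ r) :
    ‖s‖ ^ r + ‖a‖ ^ r ≤ (‖s + a‖ ^ r + ‖s - a‖ ^ r) / 2 := by
  have h1 : 1 ≤ r / 2 := by linarith
  have h2 := (convexOn_rpow h1).2 (x := ‖s + a‖ ^ 2) (y := ‖s - a‖ ^ 2)
    (Set.mem_Ici.2 (sq_nonneg _)) (Set.mem_Ici.2 (sq_nonneg _)) (show (0 : ℝ) ≤ 1 / 2 by norm_num) (show (0 : ℝ) ≤ 1 / 2 by norm_num) (by norm_num)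
  have h3 := parallelogram_law_with_norm 𝕜 s a
  simp only [smul_eq_mul] at h2
  rw [show 1 / 2 * ‖s + a‖ ^ 2 + 1 / 2 * ‖s - a‖ ^ 2 = ‖s‖ ^ 2 + ‖a‖ ^ 2 by linarith,
    sq_rpow_half (norm_nonneg _), sq_rpow_half (norm_nonneg _)] at h2
  have h4 := Real.add_rpow_le_rpow_add (sq_nonneg ‖s‖) (sq_nonneg ‖a‖) h1
  rw [sq_rpow_half (norm_nonneg _), sq_rpow_half (norm_nonneg _)] at h4
  linarith

theorem smooth1 {t v r : ℝ} (hr : 1 ≤ r) (ht : t ≤ 1) (hv : v ^ 2 ≤ 4 * t)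
    (h1 : 0 ≤ 1 + t + v) (h2 : 0 ≤ 1 + t - v) :
    ((1 + t + v) ^ r + (1 + t - v) ^ r) / 2 ≤ 1 + Real.exp (r + 2 * r ^ 2) * t := by
  have ht0 : 0 ≤ t := by nlinarith [sq_nonneg v]
  have a1 : ∀ x : ℝ, 0 ≤ 1 + x → (1 + x) ^ r ≤ Real.exp (x * r) := fun x hx => by
    rw [Real.exp_mul]
    exact Real.rpow_le_rpow hx (by linarith [Real.add_one_le_exp x]) (by linarith)
  have a2 := a1 (t + v) (by linarith)
  have a3 := a1 (t - v) (by linarith)
  rw [← add_assoc, add_mul, Real.exp_add] at a2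
  rw [← add_sub_assoc, sub_mul, sub_eq_add_neg (t * r), Real.exp_add] at a3
  have a4 := Real.cosh_le_exp_half_sq (v * r)
  rw [Real.cosh_eq] at a4
  have a5 := mul_le_mul_of_nonneg_left a4 (Real.exp_pos (t * r)).le
  rw [← Real.exp_add] at a5
  have a6 : Real.exp (t * r + (v * r) ^ 2 / 2) ≤ Real.exp (t * (r + 2 * r ^ 2)) :=
    Real.exp_le_exp.2 (by nlinarith [mul_le_mul_of_nonneg_right hv (sq_nonneg r)])
  have a7 := convexOn_exp.2 (Set.mem_univ (r + 2 * r ^ 2)) (Set.mem_univ 0) ht0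
    (show 0 ≤ 1 - t by linarith) (by ring)
  simp only [smul_eq_mul, mul_zero, add_zero, Real.exp_zero, mul_one] at a7
  linarith

theorem smooth {p : ℝ} (hp : 2 ≤ p) : ∃ C, 1 ≤ C ∧ ∀ (s a : 𝕜) (ρ : ℝ), 0 < ρ →
    (‖s + a‖ ^ p + ‖s - a‖ ^ p) / 2 ≤
      ‖s‖ ^ p + C * (‖s‖ ^ p * (‖a‖ ^ 2 / ρ ^ 2) + ρ ^ (p - 2) * ‖a‖ ^ 2 + ‖a‖ ^ p) := by
  set c := Real.exp (p / 2 + 2 * (p / 2) ^ 2) with hc
  have hc0 : 0 < c := Real.exp_pos _
  have h2p : (1 : ℝ) ≤ 2 ^ p := Real.one_le_rpow (by norm_num) (by linarith)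
  refine ⟨2 ^ p + c, by linarith, fun s a ρ hρ => ?_⟩
  have p1 : 0 ≤ ‖s‖ ^ p * (‖a‖ ^ 2 / ρ ^ 2) := by positivity
  have p2 : 0 ≤ ρ ^ (p - 2) * ‖a‖ ^ 2 := by positivity
  have p3 : 0 ≤ ‖a‖ ^ p := by positivity
  have p4 : 0 ≤ ‖s‖ ^ p := by positivity
  rcases le_or_gt ‖s‖ ‖a‖ with h | h
  · have a1 : ‖s + a‖ ^ p ≤ (2 * ‖a‖) ^ p := by gcongr; linarith [norm_add_le s a]
    have a2 : ‖s - a‖ ^ p ≤ (2 * ‖a‖) ^ p := by gcongr; linarith [norm_sub_le s a]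
    rw [Real.mul_rpow (by norm_num) (norm_nonneg _)] at a1 a2
    nlinarith
  · have hs : 0 < ‖s‖ := (norm_nonneg _).trans_lt h
    set t := ‖a‖ ^ 2 / ‖s‖ ^ 2 with ht
    set v := ‖s + a‖ ^ 2 / ‖s‖ ^ 2 - 1 - t with hv
    have h3 := parallelogram_law_with_norm 𝕜 s a
    have e1 : 1 + t + v = (‖s + a‖ / ‖s‖) ^ 2 := by rw [hv, div_pow]; ring
    have e2 : 1 + t - v = (‖s - a‖ / ‖s‖) ^ 2 := by
      rw [hv, ht, div_pow]; field_simp; linarith
    have b1 := pow_le_pow_left₀ (norm_nonneg _) (norm_add_le s a) 2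
    have b2 := pow_le_pow_left₀ (norm_nonneg _) (norm_sub_le s a) 2
    have b3 : v ^ 2 ≤ 4 * t := by
      have e3 : v = (‖s + a‖ ^ 2 - ‖s‖ ^ 2 - ‖a‖ ^ 2) / ‖s‖ ^ 2 := by rw [hv, ht]; field_simp
      have e4 : 4 * t = (2 * ‖s‖ * ‖a‖ / ‖s‖ ^ 2) ^ 2 := by rw [ht]; field_simp; ring
      rw [e3, e4, div_pow, div_pow]
      gcongr ?_ / _
      apply sq_le_sq' <;> nlinarith
    have a1 := smooth1 (r := p / 2) (by linarith) (show t ≤ 1 from div_le_one_of_le₀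
      (by gcongr) (by positivity)) b3 (by rw [e1]; positivity) (by rw [e2]; positivity)
    rw [e1, e2, sq_rpow_half (by positivity), sq_rpow_half (by positivity),
      Real.div_rpow (norm_nonneg _) hs.le, Real.div_rpow (norm_nonneg _) hs.le, ← add_div,
      div_right_comm, div_le_iff₀ (by positivity), ← hc] at a1
    have a2 : t * ‖s‖ ^ p ≤ ‖s‖ ^ p * (‖a‖ ^ 2 / ρ ^ 2) + ρ ^ (p - 2) * ‖a‖ ^ 2 := by
      rcases le_total ρ ‖s‖ with h1 | h1
      · have : t ≤ ‖a‖ ^ 2 / ρ ^ 2 := by rw [ht]; gcongr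
        nlinarith
      · have c1 : ‖s‖ ^ (p - 2) ≤ ρ ^ (p - 2) := by gcongr
        have c2 : t * ‖s‖ ^ p = ‖s‖ ^ (p - 2) * ‖a‖ ^ 2 := by
          rw [Real.rpow_sub hs, ht, Real.rpow_two]; ring
        nlinarith [sq_nonneg ‖a‖]
    nlinarith

theorem ros_ind {B : Type} [DecidableEq B] {p C : ℝ} (hp : 2 ≤ p) (hC : 1 ≤ C)
    (hs : ∀ (s a : 𝕜) (ρ : ℝ), 0 < ρ → (‖s + a‖ ^ p + ‖s - a‖ ^ p) / 2 ≤
      ‖s‖ ^ p + C * (‖s‖ ^ p * (‖a‖ ^ 2 / ρ ^ 2) + ρ ^ (p - 2) * ‖a‖ ^ 2 + ‖a‖ ^ p))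
    (u : B → ℝ) (hu : ∀ b, 1 ≤ u b) (s : Finset B) :
    ∃ (Ω : Type) (_ : Fintype Ω) (P : Ω → ℝ) (f : B → Ω → ℝ), (∀ ω, 0 ≤ P ω) ∧ ∑ ω, P ω = 1 ∧
      (∀ b ∈ s, ∀ b' ∈ s, ∑ ω, P ω * (f b ω * f b' ω) = if b = b' then 1 else 0) ∧
      (∀ (c : B → 𝕜) (ρ : ℝ), 0 < ρ → ∑ ω, P ω * ‖∑ b ∈ s, (f b ω : 𝕜) * c b‖ ^ p ≤
        Real.exp (C * ((∑ b ∈ s, ‖c b‖ ^ 2) / ρ ^ 2)) * (C * (ρ ^ (p - 2) * ∑ b ∈ s, ‖c b‖ ^ 2 +
          ∑ b ∈ s, u b ^ (p - 2) * ‖c b‖ ^ p))) ∧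
      ∀ (r : ℝ), 2 ≤ r → ∀ g : Ω → 𝕜,
        ∑ b ∈ s, u b ^ (r - 2) * ‖∑ ω, ((P ω * f b ω : ℝ) : 𝕜) * g ω‖ ^ r ≤
          ∑ ω, P ω * ‖g ω‖ ^ r := by
  induction s using Finset.induction_on with
  | empty =>
    refine ⟨Unit, inferInstance, fun _ => 1, fun _ _ => 0, by simp, by simp, by simp,
      fun c ρ _ => ?_, fun r _ g => ?_⟩
    · simp [show p ≠ 0 by linarith]
    · simp; positivity
  | insert b0 s hb0 ih =>
    obtain ⟨Ω, i1, P, f, h0, h1, h2, h3, h4⟩ := ih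
    set U := u b0 with hU
    have hU1 : 1 ≤ U := hu b0
    have hU0 : 0 < U := by linarith
    set δ := 1 / U ^ 2 with hδ
    have hδ0 : 0 < δ := by positivity
    have hδ1 : δ ≤ 1 := div_le_one_of_le₀ (one_le_pow₀ hU1) (by positivity)
    have hδU : δ * U ^ 2 = 1 := by rw [hδ]; field_simp
    have hδr : ∀ r : ℝ, δ * U ^ r = U ^ (r - 2) := fun r => by
      rw [Real.rpow_sub hU0, hδ, Real.rpow_two]; ring
    let w : Fin 3 → ℝ := ![1 - δ, δ / 2, δ / 2]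
    let φ : Fin 3 → ℝ := ![0, U, -U]
    let f' : B → Ω × Fin 3 → ℝ := fun b x => if b = b0 then φ x.2 else f b x.1
    have f0 : ∀ x, f' b0 x = φ x.2 := fun x => if_pos rfl
    have f1 : ∀ b ∈ s, ∀ x, f' b x = f b x.1 := fun b hb x => if_neg (ne_of_mem_of_not_mem hb hb0)
    have sw : ∀ {A : Type} [AddCommMonoid A] (G : Ω × Fin 3 → A),
        ∑ x, G x = ∑ ω, (G (ω, 0) + G (ω, 1) + G (ω, 2)) := fun G => by
      rw [Fintype.sum_prod_type]; simp only [Fin.sum_univ_three]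
    have w0 : w 0 = 1 - δ := rfl
    have w1 : w 1 = δ / 2 := rfl
    have w2 : w 2 = δ / 2 := rfl
    have q0 : φ 0 = 0 := rfl
    have q1 : φ 1 = U := rfl
    have q2 : φ 2 = -U := rfl
    refine ⟨Ω × Fin 3, inferInstance, fun x => P x.1 * w x.2, f', fun x => mul_nonneg (h0 _) ?_,
      ?_, fun b hb b' hb' => ?_, fun c ρ hρ => ?_, fun r hr g => ?_⟩
    · rcases x with ⟨ω, t⟩
      fin_cases t <;> simp [w] <;> linarith
    · rw [sw, ← h1]
      exact sum_congr rfl fun ω _ => by simp only [w0, w1, w2]; ring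
    · rw [sw]
      rcases mem_insert.1 hb with rfl | hc <;> rcases mem_insert.1 hb' with rfl | hc'
      · rw [if_pos rfl, ← h1]
        refine sum_congr rfl fun ω _ => ?_
        simp only [f0, w0, w1, w2, q0, q1, q2]
        linear_combination P ω * hδU
      · rw [if_neg (ne_of_mem_of_not_mem hc' hb0).symm]
        refine sum_eq_zero fun ω _ => ?_
        simp only [f0, f1 _ hc', w0, w1, w2, q0, q1, q2]; ring
      · rw [if_neg (ne_of_mem_of_not_mem hc hb0)]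
        refine sum_eq_zero fun ω _ => ?_
        simp only [f0, f1 _ hc, w0, w1, w2, q0, q1, q2]; ring
      · rw [← h2 b hc b' hc']
        refine sum_congr rfl fun ω _ => ?_
        simp only [f1 _ hc, f1 _ hc', w0, w1, w2]; ring
    · have e1 : ∀ x, ∑ b ∈ insert b0 s, (f' b x : 𝕜) * c b =
          ∑ b ∈ s, (f b x.1 : 𝕜) * c b + (φ x.2 : 𝕜) * c b0 := fun x => by
        rw [sum_insert hb0, f0, add_comm, sum_congr rfl fun b hb => by rw [f1 b hb]]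
      simp only [e1, sum_insert hb0 (f := fun b => ‖c b‖ ^ 2),
        sum_insert hb0 (f := fun b => u b ^ (p - 2) * ‖c b‖ ^ p)]
      have a1 := h3 c ρ hρ
      set σ := ∑ b ∈ s, ‖c b‖ ^ 2
      set Λ := ∑ b ∈ s, u b ^ (p - 2) * ‖c b‖ ^ p
      have hσ : 0 ≤ σ := by positivity
      have hΛ : 0 ≤ Λ := sum_nonneg fun b _ => by have := hu b; positivity
      set x := C * (‖c b0‖ ^ 2 / ρ ^ 2) with hx
      set y := C * (ρ ^ (p - 2) * ‖c b0‖ ^ 2 + U ^ (p - 2) * ‖c b0‖ ^ p) with hy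
      have a2 : ∀ S : 𝕜, (1 - δ) * ‖S‖ ^ p + δ / 2 * ‖S + U * c b0‖ ^ p +
          δ / 2 * ‖S - U * c b0‖ ^ p ≤ ‖S‖ ^ p * (1 + x) + y := fun S => by
        have b1 := mul_le_mul_of_nonneg_left (hs S (U * c b0) ρ hρ) hδ0.le
        rw [norm_mul, RCLike.norm_ofReal, abs_of_pos hU0, Real.mul_rpow hU0.le (norm_nonneg _),
          mul_pow] at b1
        have b2 : δ * (C * (‖S‖ ^ p * (U ^ 2 * ‖c b0‖ ^ 2 / ρ ^ 2) + ρ ^ (p - 2) *
            (U ^ 2 * ‖c b0‖ ^ 2) + U ^ p * ‖c b0‖ ^ p)) = ‖S‖ ^ p * x + y := by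
          rw [hx, hy, ← hδr]
          linear_combination (C * (‖S‖ ^ p * (‖c b0‖ ^ 2 / ρ ^ 2) + ρ ^ (p - 2) * ‖c b0‖ ^ 2)) * hδU
        linarith
      have a3 : ∑ x : Ω × Fin 3, P x.1 * w x.2 *
          ‖∑ b ∈ s, (f b x.1 : 𝕜) * c b + (φ x.2 : 𝕜) * c b0‖ ^ p ≤
          (∑ ω, P ω * ‖∑ b ∈ s, (f b ω : 𝕜) * c b‖ ^ p) * (1 + x) + y := by
        rw [sw, sum_mul, show y = ∑ ω, P ω * y by rw [← sum_mul, h1, one_mul], ← sum_add_distrib]
        refine sum_le_sum fun ω _ => ?_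
        have := mul_le_mul_of_nonneg_left (a2 (∑ b ∈ s, (f b ω : 𝕜) * c b)) (h0 ω)
        simp only [w0, w1, w2, q0, q1, q2, RCLike.ofReal_zero, zero_mul, add_zero,
          RCLike.ofReal_neg, neg_mul, ← sub_eq_add_neg]
        linarith
      refine a3.trans ?_
      have hx0 : 0 ≤ x := by positivity
      have hy0 : 0 ≤ y := by positivity
      have e2 : C * ((‖c b0‖ ^ 2 + σ) / ρ ^ 2) = C * (σ / ρ ^ 2) + x := by rw [hx]; ring
      have e3 : C * (ρ ^ (p - 2) * (‖c b0‖ ^ 2 + σ) + (U ^ (p - 2) * ‖c b0‖ ^ p + Λ)) =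
          C * (ρ ^ (p - 2) * σ + Λ) + y := by rw [hy]; ring
      rw [e2, e3, Real.exp_add, mul_add _ _ y]
      have a4 : 1 + x ≤ Real.exp x := by linarith [Real.add_one_le_exp x]
      have a5 : 1 ≤ Real.exp (C * (σ / ρ ^ 2)) := Real.one_le_exp (by positivity)
      refine add_le_add ?_ (le_mul_of_one_le_left hy0 (one_le_mul_of_one_le_of_one_le a5
        (by linarith)))
      rw [mul_right_comm]
      exact mul_le_mul a1 a4 (by positivity) (by positivity)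
    · rw [sum_insert hb0]
      let m : Ω → 𝕜 := fun ω => (g (ω, 1) + g (ω, 2)) / 2
      let a : Ω → 𝕜 := fun ω => (g (ω, 1) - g (ω, 2)) / 2
      let gb : Ω → 𝕜 := fun ω => ((1 - δ : ℝ) : 𝕜) * g (ω, 0) + (δ : 𝕜) * m ω
      have e1 : ∀ b ∈ s, ∑ x : Ω × Fin 3, ((P x.1 * w x.2 * f' b x : ℝ) : 𝕜) * g x =
          ∑ ω, ((P ω * f b ω : ℝ) : 𝕜) * gb ω := fun b hb => by
        rw [sw]
        refine sum_congr rfl fun ω _ => ?_
        simp only [f1 b hb, w0, w1, w2, gb, m]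
        push_cast; ring
      have e2 : ∑ x : Ω × Fin 3, ((P x.1 * w x.2 * f' b0 x : ℝ) : 𝕜) * g x =
          ((δ * U : ℝ) : 𝕜) * ∑ ω, (P ω : 𝕜) * a ω := by
        rw [sw, mul_sum]
        refine sum_congr rfl fun ω _ => ?_
        simp only [f0, w0, w1, w2, q0, q1, q2, a]
        push_cast; ring
      rw [e2, sum_congr (s₁ := s) rfl fun b hb => by rw [e1 b hb]]
      have a1 := h4 r hr gb
      have a2 : ‖∑ ω, (P ω : 𝕜) * a ω‖ ^ r ≤ ∑ ω, P ω * ‖a ω‖ ^ r := by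
        refine le_trans (Real.rpow_le_rpow (norm_nonneg _) ((norm_sum_le _ _).trans (le_of_eq ?_))
          (by linarith)) (Real.rpow_arith_mean_le_arith_mean_rpow univ P (fun ω => ‖a ω‖)
            (fun ω _ => h0 ω) h1 (fun _ _ => norm_nonneg _) (by linarith))
        exact sum_congr rfl fun ω _ => by
          rw [norm_mul, RCLike.norm_ofReal, abs_of_nonneg (h0 ω)]
      have e3 : U ^ (r - 2) * (δ * U) ^ r = δ := by
        rw [← hδr, mul_assoc, ← Real.mul_rpow hU0.le (by positivity),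
          show U * (δ * U) = 1 by linarith, Real.one_rpow, mul_one]
      rw [norm_mul, RCLike.norm_ofReal, abs_of_pos (by positivity),
        Real.mul_rpow (by positivity) (norm_nonneg _), ← mul_assoc, e3]
      refine (add_le_add (mul_le_mul_of_nonneg_left a2 hδ0.le) a1).trans ?_
      rw [sw, mul_sum, ← sum_add_distrib]
      refine sum_le_sum fun ω _ => ?_
      have b1 := clark (m ω) (a ω) hr
      rw [show m ω + a ω = g (ω, 1) by simp only [m, a]; ring,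
        show m ω - a ω = g (ω, 2) by simp only [m, a]; ring] at b1
      have b2 := (convexOn_rpow (show 1 ≤ r by linarith)).2 (x := ‖g (ω, 0)‖) (y := ‖m ω‖)
        (norm_nonneg _) (norm_nonneg _) (show 0 ≤ 1 - δ by linarith) hδ0.le (by ring)
      simp only [smul_eq_mul] at b2
      have b3 : ‖gb ω‖ ^ r ≤ ((1 - δ) * ‖g (ω, 0)‖ + δ * ‖m ω‖) ^ r := by
        refine Real.rpow_le_rpow (norm_nonneg _) ((norm_add_le _ _).trans (le_of_eq ?_))
          (by linarith)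
        rw [norm_mul, norm_mul, RCLike.norm_ofReal, RCLike.norm_ofReal, abs_of_pos hδ0,
          abs_of_nonneg (by linarith)]
      have b4 := mul_le_mul_of_nonneg_left b1 hδ0.le
      have b5 : δ * ‖a ω‖ ^ r + ‖gb ω‖ ^ r ≤ (1 - δ) * ‖g (ω, 0)‖ ^ r +
          δ / 2 * ‖g (ω, 1)‖ ^ r + δ / 2 * ‖g (ω, 2)‖ ^ r := by linarith
      have b6 := mul_le_mul_of_nonneg_left b5 (h0 ω)
      simp only [w0, w1, w2]
      linarith

theorem ros {p : ℝ} (hp : 2 < p) : ∃ C, 1 ≤ C ∧ ∀ (B : Type) [Fintype B] [DecidableEq B]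
    (lam : B → ℝ), (∀ b, 1 ≤ lam b) → ∃ (Ω : Type) (_ : Fintype Ω) (F : Ω → B → ℝ)
      (Φ : B → Ω → ℝ), (∀ b b', ∑ ω, Φ b ω * F ω b' = if b = b' then 1 else 0) ∧
      (∀ c : B → 𝕜, En p (ap F c) ≤ C * (sq2 c ^ (p / 2) + ∑ b, lam b ^ p * ‖c b‖ ^ p)) ∧
      ∀ g : Ω → 𝕜, sq2 (ap Φ g) ^ (p / 2) ≤ En p g ∧
        ∑ b, lam b ^ p * ‖ap Φ g b‖ ^ p ≤ En p g := by
  obtain ⟨C, hC, hs⟩ := smooth (𝕜 := 𝕜) hp.le
  have hp0 : 0 < p := by linarith
  refine ⟨Real.exp C * C, one_le_mul_of_one_le_of_one_le (Real.one_le_exp (by linarith)) hC,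
    fun B _ _ lam hl => ?_⟩
  obtain ⟨Ω, i1, P, f, h0, h1, h2, h3, h4⟩ := ros_ind hp.le hC hs (fun b => lam b ^ (p / (p - 2)))
    (fun b => Real.one_le_rpow (hl b) (div_nonneg hp0.le (by linarith))) univ
  have e0 : ∀ b, (lam b ^ (p / (p - 2))) ^ (p - 2) = lam b ^ p := fun b => by
    rw [← Real.rpow_mul (by linarith [hl b]), div_mul_cancel₀ _ (by linarith)]
  have e1 : ∀ ω, (P ω ^ (1 / p)) ^ p = P ω := fun ω => by
    rw [← Real.rpow_mul (h0 ω), one_div_mul_cancel hp0.ne', Real.rpow_one]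
  refine ⟨Ω, i1, fun ω b => P ω ^ (1 / p) * f b ω, fun b ω => P ω * f b ω / P ω ^ (1 / p),
    fun b b' => ?_, fun c => ?_, fun g => ?_⟩
  · rw [← h2 b (mem_univ _) b' (mem_univ _)]
    refine sum_congr rfl fun ω _ => ?_
    rcases (h0 ω).eq_or_lt with h | h
    · simp [← h]
    · have : 0 < P ω ^ (1 / p) := by positivity
      field_simp
  · have e2 : En p (ap (fun ω b => P ω ^ (1 / p) * f b ω) c) =
        ∑ ω, P ω * ‖∑ b, (f b ω : 𝕜) * c b‖ ^ p := by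
      refine sum_congr rfl fun ω _ => ?_
      have := h0 ω
      simp only [ap, RCLike.ofReal_mul, mul_assoc]
      rw [← mul_sum, norm_mul, RCLike.norm_ofReal, abs_of_nonneg (by positivity),
        Real.mul_rpow (by positivity) (norm_nonneg _), e1]
    rw [e2]
    rcases (sq2_nonneg c).eq_or_lt with h | h
    · have : ∀ b, c b = 0 := fun b => by
        have := (sum_eq_zero_iff_of_nonneg fun _ _ => by positivity).1 h.symm b (mem_univ _)
        simpa using this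
      have h5 : 0 ≤ sq2 c ^ (p / 2) := Real.rpow_nonneg (sq2_nonneg c) _
      simp only [this, mul_zero, sum_const_zero, norm_zero, Real.zero_rpow hp0.ne', add_zero]
      positivity
    · have a1 := h3 c (√(sq2 c)) (by positivity)
      have e3 : ∑ b, ‖c b‖ ^ 2 = sq2 c := rfl
      have e4 : √(sq2 c) ^ (p - 2) * sq2 c = sq2 c ^ (p / 2) := by
        rw [Real.sqrt_eq_rpow, ← Real.rpow_mul h.le, ← Real.rpow_add_one h.ne']
        congr 1; ring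
      simp only [e0] at a1
      rw [e3, Real.sq_sqrt h.le, div_self h.ne', mul_one, e4, ← mul_assoc] at a1
      exact a1
  · let g' : Ω → 𝕜 := fun ω => g ω / ((P ω ^ (1 / p) : ℝ) : 𝕜)
    have e2 : ∀ b, ap (fun b ω => P ω * f b ω / P ω ^ (1 / p)) g b =
        ∑ ω, ((P ω * f b ω : ℝ) : 𝕜) * g' ω := fun b =>
      sum_congr rfl fun ω _ => by simp only [g']; push_cast; ring
    have a1 : ∑ ω, P ω * ‖g' ω‖ ^ p ≤ En p g := sum_le_sum fun ω _ => by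
      rcases (h0 ω).eq_or_lt with h | h
      · rw [← h, zero_mul]; positivity
      · simp only [g']
        rw [norm_div, RCLike.norm_ofReal, abs_of_nonneg (by positivity),
          Real.div_rpow (norm_nonneg _) (by positivity), e1, mul_div_cancel₀ _ h.ne']
    constructor
    · have a2 := h4 2 le_rfl g'
      simp only [sub_self, Real.rpow_zero, one_mul, Real.rpow_two, ← e2] at a2
      refine (Real.rpow_le_rpow (sq2_nonneg _) a2 (by linarith)).trans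
        ((Real.rpow_arith_mean_le_arith_mean_rpow univ P (fun ω => ‖g' ω‖ ^ 2)
          (fun ω _ => h0 ω) h1 (fun _ _ => by positivity) (by linarith)).trans ?_)
      simp only [sq_rpow_half (norm_nonneg _)]
      exact a1
    · have a2 := h4 p hp.le g'
      simp only [e0, ← e2] at a2
      exact a2.trans a1

end Pool.Agent.Lib.MP_a2b538_an.LP
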