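import Mathlib
import Pool.Agent.Lib.MP_a2b538_an.LP.Ros

namespace Pool.Agent.Lib.MP_a2b538_an.LP

open Finset

variable {𝕜 : Type} [RCLike 𝕜] {p : ℝ}

theorem frame (hp : 2 < p) : ∃ C, 1 ≤ C ∧ ∀ (V B : Type) [Fintype V] [DecidableEq V] [Fintype B]
    [DecidableEq B] (g : B → V → ℝ) (lam : B → ℝ),
    (∀ b b', ∑ v, g b v * g b' v = if b = b' then 1 else 0) → (∀ b, 1 ≤ lam b) →
    ∃ (Ω : Type) (_ : Fintype Ω) (I : Ω → V → ℝ) (R : V → Ω → ℝ),
      (∀ x : V → 𝕜, ap R (ap I x) = x) ∧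
      (∀ x : V → 𝕜, En p (ap I x) ≤ C * (sq2 x ^ (p / 2) + ∑ b, lam b ^ p * ‖ap g x b‖ ^ p)) ∧
      ∀ v : Ω → 𝕜, sq2 (ap R v) ^ (p / 2) + ∑ b, lam b ^ p * ‖ap g (ap R v) b‖ ^ p ≤
        C * En p v := by
  obtain ⟨C, hC, h⟩ := ros (𝕜 := 𝕜) hp
  have c8 : (1 : ℝ) ≤ 8 ^ (p / 2) := Real.one_le_rpow (by norm_num) (by linarith)
  refine ⟨C * (8 ^ (p / 2) + 1), by nlinarith, fun V B _ _ _ _ g lam hg hl => ?_⟩
  obtain ⟨Ω, i1, F, Φ, h1, h2, h3⟩ := h (V ⊕ B) (Sum.elim (fun _ => 1) lam) (by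
    rintro (v | b)
    exacts [le_rfl, hl b])
  obtain ⟨b1, b2⟩ := bessel (𝕜 := 𝕜) g hg
  let J : V ⊕ B → V → ℝ := Sum.elim (fun a b => if a = b then 1 else 0) g
  let L : V → V ⊕ B → ℝ := fun v =>
    Sum.elim (fun w => (if v = w then 1 else 0) - ∑ b, g b v * g b w) fun b => g b v
  have e1 : ∀ x : V → 𝕜, ap J x = Sum.elim x (ap g x) := fun x => by
    funext o
    rcases o with v | b
    · exact congrFun (ap_one x) v
    · rfl
  have e2 : ∀ d : V ⊕ B → 𝕜, ap L d = (fun v => d (.inl v)) -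
      ap (fun v b => g b v) (ap g fun v => d (.inl v)) + ap (fun v b => g b v) fun b => d (.inr b) :=
    fun d => by
      rw [ap_ap]
      nth_rewrite 1 [← ap_one fun v => d (.inl v)]
      funext v
      simp only [ap, L, Fintype.sum_sum_type, Sum.elim_inl, Sum.elim_inr, Pi.add_apply,
        Pi.sub_apply, RCLike.ofReal_sub, sub_mul, sum_sub_distrib]
  have e3 : ∀ c : B → 𝕜, ap g (ap (fun v b => g b v) c) = c := fun c => by
    rw [ap_ap]; simp only [hg, ap_one]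
  have e4 : ∀ d : V ⊕ B → 𝕜, ap Φ (ap F d) = d := fun d => by
    rw [ap_ap]; simp only [h1, ap_one]
  have e5 : ∀ d : V ⊕ B → 𝕜, sq2 d = sq2 (fun v => d (.inl v)) + sq2 fun b => d (.inr b) :=
    fun d => Fintype.sum_sum_type _
  refine ⟨Ω, i1, fun ω v => ∑ o, F ω o * J o v, fun v ω => ∑ o, L v o * Φ o ω, fun x => ?_,
    fun x => ?_, fun v => ?_⟩
  · rw [← ap_ap, ← ap_ap, e4, e1, e2]
    simp
  · rw [← ap_ap, e1]
    refine (h2 _).trans ?_
    rw [mul_assoc]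
    refine mul_le_mul_of_nonneg_left ?_ (by linarith)
    rw [Fintype.sum_sum_type, e5]
    simp only [Sum.elim_inl, Sum.elim_inr, Real.one_rpow, one_mul]
    have a1 : ∑ v, ‖x v‖ ^ p ≤ sq2 x ^ (p / 2) := En_le_sq2 hp.le x
    have a0 := sq2_nonneg x
    have a2 : (sq2 x + sq2 (ap g x)) ^ (p / 2) ≤ 8 ^ (p / 2) * sq2 x ^ (p / 2) := by
      rw [← Real.mul_rpow (by norm_num) a0]
      exact Real.rpow_le_rpow (add_nonneg a0 (sq2_nonneg _)) (by linarith [b1 x]) (by linarith)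
    have a3 : 0 ≤ ∑ b, lam b ^ p * ‖ap g x b‖ ^ p :=
      sum_nonneg fun b _ => by have := hl b; positivity
    nlinarith
  · rw [← ap_ap]
    obtain ⟨a1, a2⟩ := h3 v
    set d := ap Φ v
    rw [Fintype.sum_sum_type] at a2
    simp only [Sum.elim_inl, Sum.elim_inr, Real.one_rpow, one_mul] at a2
    have a3 : sq2 (ap L d) ≤ 8 * sq2 d := by
      rw [e2, e5 d]
      have c1 := sq2_nonneg fun b => d (.inr b)
      linarith [sq2_add_le ((fun v => d (.inl v)) - ap (fun v b => g b v) (ap g fun v => d (.inl v)))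
        (ap (fun v b => g b v) fun b => d (.inr b)), sq2_sub_le (fun v => d (.inl v))
        (ap (fun v b => g b v) (ap g fun v => d (.inl v))), b2 (ap g fun v => d (.inl v)),
        b1 fun v => d (.inl v), b2 fun b => d (.inr b)]
    have a4 : sq2 (ap L d) ^ (p / 2) ≤ 8 ^ (p / 2) * sq2 d ^ (p / 2) := by
      rw [← Real.mul_rpow (by norm_num) (sq2_nonneg _)]
      exact Real.rpow_le_rpow (sq2_nonneg _) a3 (by linarith)
    have a5 : ap g (ap L d) = fun b => d (.inr b) := by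
      rw [e2, ap_add, ap_sub, e3, e3]; simp
    rw [a5]
    have a6 : 0 ≤ ∑ v, ‖d (.inl v)‖ ^ p := by positivity
    have a7 := En_nonneg (p := p) v
    have a8 := mul_le_mul_of_nonneg_left a1 (show (0 : ℝ) ≤ 8 ^ (p / 2) by positivity)
    have a9 := mul_le_mul_of_nonneg_right hC
      (show 0 ≤ ((8 : ℝ) ^ (p / 2) + 1) * En p v by positivity)
    simp only
    nlinarith

theorem hold {T K : Type} [Fintype T] [Fintype K] (hp : 2 < p) (c : T × K → 𝕜) (w : K → ℝ)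
    (hw : ∀ k, 0 < w k) {D : ℝ} (h : ∀ l, ‖c l‖ ^ (p - 2) ≤ D * w l.2 ^ (p - 1)) :
    ∑ τ, (∑ k, ‖c (τ, k)‖) ^ p ≤ (∑ k, w k) ^ (p - 1) * (D * sq2 c) := by
  have hp0 : 0 < p := by linarith
  have hs : 0 ≤ ∑ k, w k := sum_nonneg fun k _ => (hw k).le
  rw [sq2, Fintype.sum_prod_type, mul_sum, mul_sum]
  refine sum_le_sum fun τ _ => ?_
  have a1 := Real.inner_le_weight_mul_Lp_of_nonneg univ (show 1 ≤ p by linarith) w
    (fun k => ‖c (τ, k)‖ / w k) (fun k => (hw k).le) fun k => div_nonneg (norm_nonneg _) (hw k).le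
  simp only [mul_div_cancel₀ _ (hw _).ne'] at a1
  have a0 : 0 ≤ ∑ k, w k * (‖c (τ, k)‖ / w k) ^ p :=
    sum_nonneg fun k _ => by have := hw k; positivity
  have a2 := Real.rpow_le_rpow (by positivity) a1 hp0.le
  rw [Real.mul_rpow (by positivity) (by positivity), ← Real.rpow_mul hs, ← Real.rpow_mul a0,
    inv_mul_cancel₀ hp0.ne', Real.rpow_one, sub_mul, inv_mul_cancel₀ hp0.ne', one_mul] at a2
  refine a2.trans (mul_le_mul_of_nonneg_left ?_ (by positivity))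
  rw [mul_sum]
  refine sum_le_sum fun k _ => ?_
  have b0 := hw k
  have b1 : ‖c (τ, k)‖ ^ p = ‖c (τ, k)‖ ^ (p - 2) * ‖c (τ, k)‖ ^ 2 := by
    rw [← Real.rpow_two, ← Real.rpow_add' (norm_nonneg _) (by linarith)]; congr 1; ring
  have b2 : w k ^ p = w k * w k ^ (p - 1) := by
    rw [Real.rpow_sub_one b0.ne']; field_simp
  rw [Real.div_rpow (norm_nonneg _) b0.le, b1, b2, ← mul_div_assoc, mul_div_mul_left _ _ b0.ne',
    div_le_iff₀ (by positivity), mul_right_comm]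
  exact mul_le_mul_of_nonneg_right (h (τ, k)) (by positivity)

theorem geo {K : Type} {ρ : ℝ} (h0 : 0 ≤ ρ) (h1 : ρ < 1) (s : Finset K) (d : K → ℕ)
    (hd : Set.InjOn d s) : ∑ k ∈ s, ρ ^ d k ≤ (1 - ρ)⁻¹ := by
  rw [← sum_image (f := fun i => ρ ^ i) hd, ← tsum_geometric_of_lt_one h0 h1]
  exact (summable_geometric_of_lt_one h0 h1).sum_le_tsum _ fun _ _ => by positivity

theorem err (hp : 2 < p) : ∃ S, 1 ≤ S ∧ ∀ u : ℝ, 0 < u → ∃ j : ℕ, ∀ (m : ℕ) (T : Type) [Fintype T]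
    (c : T × Fin m → 𝕜) (σ : ℝ), 0 ≤ σ →
    (∀ l : T × Fin m, (l.2 : ℕ) < j → ‖c l‖ ≤ σ * (u * 2 ^ (l.2 : ℕ))) →
    (∀ l : T × Fin m, ¬ (l.2 : ℕ) < j → ‖c l‖ * (u * 2 ^ (l.2 : ℕ)) ≤ σ) →
    ∑ τ, (∑ k, ‖c (τ, k)‖) ^ p ≤ S * (σ ^ (p - 2) * sq2 c) := by
  set ρ : ℝ := (1 / 2) ^ ((p - 2) / (p - 1)) with hρ
  have r0 : 0 < ρ := by positivity
  have r1 : ρ < 1 := Real.rpow_lt_one (by norm_num) (by norm_num)
    (div_pos (by linarith) (by linarith))
  have r2 : 1 ≤ (1 - ρ)⁻¹ := (one_le_inv₀ (by linarith)).2 (by linarith)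
  refine ⟨(2 * (1 - ρ)⁻¹) ^ (p - 1), Real.one_le_rpow (by linarith) (by linarith), fun u hu => ?_⟩
  have hex : ∃ j : ℕ, 1 < u * 2 ^ j := by
    obtain ⟨j, hj⟩ := pow_unbounded_of_one_lt (1 / u) (one_lt_two (α := ℝ))
    exact ⟨j, by rwa [div_lt_iff₀' hu] at hj⟩
  set j := Nat.find hex with hj
  refine ⟨j, fun m T _ c σ hσ h1 h2 => ?_⟩
  let d : Fin m → ℕ := fun k => if (k : ℕ) < j then j - 1 - k else k - j
  have a1 : ∀ l : T × Fin m, ‖c l‖ ≤ σ * (1 / 2) ^ d l.2 := fun l => by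
    simp only [d]
    split_ifs with hk
    · refine (h1 l hk).trans (mul_le_mul_of_nonneg_left ?_ hσ)
      have b1 := not_lt.1 (Nat.find_min hex (show j - 1 < j by omega))
      rw [show j - 1 = l.2 + (j - 1 - l.2) by omega, pow_add, ← mul_assoc] at b1
      rw [one_div, inv_pow, ← one_div, le_div_iff₀ (by positivity)]
      exact b1
    · have b1 : 1 < u * 2 ^ j := Nat.find_spec hex
      have b2 := h2 l hk
      rw [show (l.2 : ℕ) = j + (l.2 - j) by omega, pow_add, ← mul_assoc u] at b2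
      rw [one_div, inv_pow, ← div_eq_mul_inv, le_div_iff₀ (by positivity)]
      refine le_trans (mul_le_mul_of_nonneg_left ?_ (norm_nonneg _)) b2
      exact le_mul_of_one_le_left (by positivity) b1.le
  refine (hold hp c (fun k => ρ ^ d k) (fun k => by positivity) (D := σ ^ (p - 2))
    fun l => ?_).trans (mul_le_mul_of_nonneg_right ?_ (mul_nonneg (by positivity) (sq2_nonneg _)))
  · refine (Real.rpow_le_rpow (norm_nonneg _) (a1 l) (by linarith)).trans (le_of_eq ?_)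
    rw [Real.mul_rpow hσ (by positivity), hρ, ← Real.rpow_natCast, ← Real.rpow_natCast,
      ← Real.rpow_mul (by positivity), ← Real.rpow_mul (by positivity),
      ← Real.rpow_mul (by positivity)]
    congr 2
    have : p - 1 ≠ 0 := by linarith
    field_simp
  · refine Real.rpow_le_rpow (by positivity) ?_ (by linarith)
    rw [← sum_filter_add_sum_filter_not univ (fun k : Fin m => (k : ℕ) < j), two_mul]
    refine add_le_add (geo r0.le r1 _ d fun a ha b hb h => ?_) (geo r0.le r1 _ d fun a ha b hb h => ?_)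
    · have c1 := (mem_filter.1 ha).2
      have c2 := (mem_filter.1 hb).2
      simp only [d, if_pos c1, if_pos c2] at h
      exact Fin.ext (by omega)
    · have c1 := (mem_filter.1 ha).2
      have c2 := (mem_filter.1 hb).2
      simp only [d, if_neg c1, if_neg c2] at h
      exact Fin.ext (by omega)

end Pool.Agent.Lib.MP_a2b538_an.LP
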