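import Mathlib
import Pool.Agent.Lib.MP_a2b538_an.LP.Basic

namespace Pool.Agent.Lib.MP_a2b538_an.LP

open Finset

variable {𝕜 : Type} [RCLike 𝕜]

/-- initial segment -/
def ini (j : ℕ) (c : ℕ → 𝕜) : ℕ → 𝕜 := fun k => if k < j then c k else 0

theorem tower_ind {p t : ℝ} (hp : 1 ≤ p) (ht : 0 < t) (ht2 : 2 * t ^ 2 = 1) (r : ℕ) :
    ∃ (B : Type) (_ : Fintype B) (_ : DecidableEq B) (H : B → ℕ → ℝ) (lam : B → ℝ),
      (∀ b b', ∑ k ∈ range (2 ^ r), H b k * H b' k = if b = b' then 1 else 0) ∧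
      (∀ b, ∑ k ∈ range (2 ^ r), H b k = 0) ∧ (∀ b, 1 ≤ lam b) ∧
      (∀ k, ∑ b, lam b * |H b k| ≤ 10 * (1 - (9 / 10) ^ r)) ∧
      ∀ (c : ℕ → 𝕜) (j : ℕ),
        ∑ b, lam b ^ p * ‖∑ k ∈ range (2 ^ r), (H b k : 𝕜) * ini j c k‖ ^ p +
          9 * ((5 / 4 * t) ^ r * ‖∑ k ∈ range (2 ^ r), ini j c k‖) ^ p ≤
        100 * 9 ^ p * 9 ^ p * ∑ b, lam b ^ p * ‖∑ k ∈ range (2 ^ r), (H b k : 𝕜) * c k‖ ^ p +
          90 * 9 ^ p * ((5 / 4 * t) ^ r * ‖∑ k ∈ range (2 ^ r), c k‖) ^ p := by
  have t1 : 5 / 4 * t ≤ 9 / 10 := by nlinarith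
  have t2 : 1 ≤ 9 / 10 * (2 * (5 / 4 * t)) := by nlinarith
  have c9 : (1 : ℝ) ≤ 9 ^ p := Real.one_le_rpow (by norm_num) (by linarith)
  have hp0 : p ≠ 0 := by linarith
  induction r with
  | zero =>
    refine ⟨Empty, inferInstance, inferInstance, fun _ _ => 0, fun _ => 1, by simp, by simp,
      by simp, by simp, fun c j => ?_⟩
    have h1 : ‖ini j c 0‖ ^ p ≤ ‖c 0‖ ^ p := by
      gcongr
      unfold ini; split_ifs <;> simp
    have h2 : 0 ≤ ‖c 0‖ ^ p := by positivity
    simp only [univ_eq_empty, sum_empty, pow_zero, range_one, sum_singleton, one_mul]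
    nlinarith
  | succ r ih =>
    obtain ⟨B, i1, i2, H, lam, h1, h2, h3, h4, h5⟩ := ih
    set m := 2 ^ r with hm
    let HL : Option (B ⊕ B) → ℕ → ℝ := fun o k => match o with
      | none => t ^ (r + 1)
      | some (.inl b) => H b k
      | some (.inr _) => 0
    let HR : Option (B ⊕ B) → ℕ → ℝ := fun o k => match o with
      | none => -t ^ (r + 1)
      | some (.inl _) => 0
      | some (.inr b) => H b k
    let H' : Option (B ⊕ B) → ℕ → ℝ := fun o k => if k < m then HL o k else HR o (k - m)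
    let lam' : Option (B ⊕ B) → ℝ := fun o => match o with
      | none => (5 / 4) ^ (r + 1)
      | some (.inl b) => lam b
      | some (.inr b) => lam b
    have sL : ∀ o, ∀ k ∈ range m, H' o k = HL o k := fun o k hk => if_pos (mem_range.1 hk)
    have sR : ∀ o k, H' o (m + k) = HR o k := fun o k => by
      simp only [H']
      rw [if_neg (by omega), Nat.add_sub_cancel_left]
    have sp : ∀ {A : Type} [AddCommMonoid A] (G : ℕ → ℝ → A) (o : Option (B ⊕ B)),
        ∑ k ∈ range (2 ^ (r + 1)), G k (H' o k) =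
          ∑ k ∈ range m, G k (HL o k) + ∑ k ∈ range m, G (m + k) (HR o k) := by
      intro A _ G o
      rw [pow_succ, mul_two, sum_range_add, ← hm, sum_congr rfl fun k hk => by rw [sL o k hk]]
      simp only [sR]
    have hmt : (m : ℝ) * (t ^ (r + 1) * t ^ (r + 1)) = 1 / 2 := by
      have : (2 * t ^ 2) ^ (r + 1) = 1 := by rw [ht2, one_pow]
      rw [hm]; push_cast
      linear_combination 1 / 2 * this
    refine ⟨Option (B ⊕ B), inferInstance, inferInstance, H', lam', fun o o' => ?_, fun o => ?_,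
      fun o => ?_, fun k => ?_, fun c j => ?_⟩
    · rw [pow_succ, mul_two, sum_range_add, ← hm,
        sum_congr rfl fun k hk => by rw [sL o k hk, sL o' k hk]]
      simp only [sR]
      rcases o with _ | b | b <;> rcases o' with _ | b' | b' <;>
        simp [HL, HR, ← mul_sum, ← sum_mul, h1, h2]
      linarith
    · rw [sp (fun _ x => x)]
      rcases o with _ | b | b <;> simp [HL, HR, h2]
    · rcases o with _ | b | b
      · exact one_le_pow₀ (by norm_num)
      · exact h3 b
      · exact h3 b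
    · rw [Fintype.sum_option, Fintype.sum_sum_type]
      have a1 : lam' none * |H' none k| ≤ (9 / 10) ^ r := by
        have : |H' none k| = t ^ (r + 1) := by
          simp only [H', HL, HR]; split_ifs <;> simp [abs_of_pos ht]
        rw [this]
        simp only [lam']
        rw [← mul_pow]
        calc _ ≤ (9 / 10 : ℝ) ^ (r + 1) := by gcongr
          _ ≤ _ := pow_le_pow_of_le_one (by norm_num) (by norm_num) (Nat.le_succ r)
      have a2 : ∑ b, lam' (some (.inl b)) * |H' (some (.inl b)) k| +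
          ∑ b, lam' (some (.inr b)) * |H' (some (.inr b)) k| ≤ 10 * (1 - (9 / 10) ^ r) := by
        simp only [H', HL, HR, lam']
        split_ifs
        · simpa using h4 k
        · simpa using h4 (k - m)
      rw [pow_succ]
      linarith
    · set ω := (5 / 4 * t) ^ r with hω
      have hω0 : 0 < ω := by positivity
      let E : (ℕ → 𝕜) → ℝ := fun c => ∑ b, lam b ^ p * ‖∑ k ∈ range m, (H b k : 𝕜) * c k‖ ^ p
      let s : (ℕ → 𝕜) → 𝕜 := fun c => ∑ k ∈ range m, c k
      have hE : ∀ c, 0 ≤ E c := fun c => sum_nonneg fun b _ => by have := h3 b; positivity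
      have e1 : ∀ c : ℕ → 𝕜, ∑ o, lam' o ^ p * ‖∑ k ∈ range (2 ^ (r + 1)), (H' o k : 𝕜) * c k‖ ^ p
          = (5 / 4 * t * ω * ‖s c - s fun k => c (m + k)‖) ^ p + (E c + E fun k => c (m + k)) := by
        intro c
        rw [Fintype.sum_option, Fintype.sum_sum_type]
        simp only [sp (fun k x => (x : 𝕜) * c k), lam', HL, HR, RCLike.ofReal_zero, zero_mul,
          sum_const_zero, add_zero, zero_add]
        congr 1
        rw [← Real.mul_rpow (by positivity) (norm_nonneg _), ← mul_sum, ← mul_sum,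
          RCLike.ofReal_neg, neg_mul, ← sub_eq_add_neg, ← mul_sub, norm_mul, RCLike.norm_ofReal,
          abs_of_pos (by positivity), hω]
        congr 1
        simp only [s]
        ring
      have e2 : ∀ c : ℕ → 𝕜, (5 / 4 * t) ^ (r + 1) * ‖∑ k ∈ range (2 ^ (r + 1)), c k‖ =
          5 / 4 * t * ω * ‖s c + s fun k => c (m + k)‖ := fun c => by
        rw [pow_succ 2, mul_two, sum_range_add, pow_succ, hω, mul_comm _ (5 / 4 * t)]
      rw [e1, e1, e2, e2]
      have e3 : (fun k => ini j c (m + k)) = ini (j - m) fun k => c (m + k) := by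
        funext k
        simp only [ini]
        exact if_congr (by omega) rfl rfl
      rw [e3]
      set c2 : ℕ → 𝕜 := fun k => c (m + k)
      have up : ∀ x y : 𝕜, (5 / 4 * t * ω * ‖x - y‖) ^ p + 9 * (5 / 4 * t * ω * ‖x + y‖) ^ p ≤
          10 * (9 / 10 * (ω * ‖x‖ + ω * ‖y‖)) ^ p := fun x y => by
        have b1 : (5 / 4 * t * ω * ‖x - y‖) ^ p ≤ (9 / 10 * (ω * ‖x‖ + ω * ‖y‖)) ^ p := by
          rw [← mul_add, ← mul_assoc]; gcongr; exact norm_sub_le _ _
        have b2 : (5 / 4 * t * ω * ‖x + y‖) ^ p ≤ (9 / 10 * (ω * ‖x‖ + ω * ‖y‖)) ^ p := by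
          rw [← mul_add, ← mul_assoc]; gcongr; exact norm_add_le _ _
        linarith
      have dn : ∀ x : 𝕜, 2 * ‖x‖ ≤ ‖s c + s c2‖ + ‖s c - s c2‖ → (ω * ‖x‖) ^ p ≤
          9 / 10 * (5 / 4 * t * ω * ‖s c + s c2‖) ^ p +
            9 ^ p * (5 / 4 * t * ω * ‖s c - s c2‖) ^ p := fun x hx => by
        refine le_trans (Real.rpow_le_rpow (by positivity) ?_ (by linarith))
          (rpow_conv (by positivity) (by positivity) hp)
        have b1 := mul_le_mul_of_nonneg_left hx (show 0 ≤ 9 / 10 * (5 / 4 * t * ω) by positivity)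
        have b2 := mul_le_mul_of_nonneg_right t2 (show 0 ≤ ω * ‖x‖ by positivity)
        linarith
      have d1 := dn (s c) (by
        have := norm_add_le (s c + s c2) (s c - s c2)
        rwa [show s c + s c2 + (s c - s c2) = 2 * s c by ring, norm_mul, RCLike.norm_two] at this)
      have d2 := dn (s c2) (by
        have := norm_sub_le (s c + s c2) (s c - s c2)
        rwa [show s c + s c2 - (s c - s c2) = 2 * s c2 by ring, norm_mul, RCLike.norm_two] at this)
      have u1 := up (s (ini j c)) (s (ini (j - m) c2))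
      have g1 : E (ini j c) + 9 * (ω * ‖s (ini j c)‖) ^ p ≤
        100 * 9 ^ p * 9 ^ p * E c + 90 * 9 ^ p * (ω * ‖s c‖) ^ p := h5 c j
      have g2 : E (ini (j - m) c2) + 9 * (ω * ‖s (ini (j - m) c2)‖) ^ p ≤
        100 * 9 ^ p * 9 ^ p * E c2 + 90 * 9 ^ p * (ω * ‖s c2‖) ^ p := h5 c2 (j - m)
      have p1 := hE c
      have p2 := hE c2
      set X := (5 / 4 * t * ω * ‖s c + s c2‖) ^ p
      set Y := (5 / 4 * t * ω * ‖s c - s c2‖) ^ p
      have pX : 0 ≤ X := by positivity
      have pY : 0 ≤ Y := by positivity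
      set N := (9 : ℝ) ^ p with hN
      have d3 := mul_le_mul_of_nonneg_left d1 (show 0 ≤ N by linarith)
      have d4 := mul_le_mul_of_nonneg_left d2 (show 0 ≤ N by linarith)
      have n1 : 1 ≤ N * N := by nlinarith
      have n2 := mul_le_mul_of_nonneg_right n1 p1
      have n3 := mul_le_mul_of_nonneg_right n1 p2
      have n4 : 0 ≤ N * X := by positivity
      have n5 : 0 ≤ N * (N * Y) := by positivity
      rcases le_total j m with hj | hj
      · have z0 : ini (j - m) c2 = 0 := by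
          funext k
          simp [ini, Nat.sub_eq_zero_of_le hj]
        have z1 : E (ini (j - m) c2) = 0 := by simp [z0, E, hp0]
        have z2 : s (ini (j - m) c2) = 0 := by simp [z0, s]
        have z3 := rpow_conv (a := ω * ‖s (ini j c)‖) (b := ω * ‖s (ini (j - m) c2)‖)
          (by positivity) (by positivity) hp
        have z4 : (ω * ‖s (ini (j - m) c2)‖) ^ p = 0 := by simp [z2, hp0]
        rw [z4] at z3
        nlinarith
      · have z0 : ∀ k ∈ range m, ini j c k = c k := fun k hk =>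
          if_pos ((mem_range.1 hk).trans_le hj)
        have z1 : E (ini j c) = E c := sum_congr rfl fun b _ => by
          rw [sum_congr rfl fun k hk => by rw [z0 k hk]]
        have z2 : s (ini j c) = s c := sum_congr rfl z0
        have z3 := rpow_conv (a := ω * ‖s (ini (j - m) c2)‖) (b := ω * ‖s c‖)
          (by positivity) (by positivity) hp
        rw [add_comm, ← hN] at z3
        rw [z2] at u1
        rw [z1, z2]
        nlinarith

theorem tower {p : ℝ} (hp : 1 ≤ p) : ∃ C, 1 ≤ C ∧ ∀ r : ℕ,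
    ∃ (B : Type) (_ : Fintype B) (_ : DecidableEq B) (H : B → Fin (2 ^ r) → ℝ) (lam : B → ℝ),
      (∀ b b', ∑ k, H b k * H b' k = if b = b' then 1 else 0) ∧ (∀ b, 1 ≤ lam b) ∧
      (∀ c : Fin (2 ^ r) → 𝕜, ∑ b, lam b ^ p * ‖ap H c b‖ ^ p ≤ C * (∑ k, ‖c k‖) ^ p) ∧
      (∀ (c : Fin (2 ^ r) → 𝕜) (j : ℕ),
        ∑ b, lam b ^ p * ‖ap H (fun k => if (k : ℕ) < j then c k else 0) b‖ ^ p ≤
          C * ∑ b, lam b ^ p * ‖ap H c b‖ ^ p) ∧
      ∀ c : Fin (2 ^ r) → 𝕜, ((5 / 4) ^ r * (‖∑ k, c k‖ / √(2 ^ r))) ^ p ≤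
        ∑ b, lam b ^ p * ‖ap H c b‖ ^ p := by
  have c9 : (1 : ℝ) ≤ 9 ^ p := Real.one_le_rpow (by norm_num) (by linarith)
  have c11 : (1 : ℝ) ≤ 11 ^ p := Real.one_le_rpow (by norm_num) (by linarith)
  refine ⟨100 * 9 ^ p * 9 ^ p + 11 ^ p, by nlinarith, fun r => ?_⟩
  set t := (√2)⁻¹ with ht
  have ht0 : 0 < t := by positivity
  have ht2 : 2 * t ^ 2 = 1 := by rw [ht, inv_pow, Real.sq_sqrt (by norm_num)]; norm_num
  have htr : t ^ r = (√(2 ^ r))⁻¹ := by
    rw [ht, inv_pow]
    congr 1
    rw [eq_comm, Real.sqrt_eq_iff_mul_self_eq (by positivity) (by positivity), ← mul_pow,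
      Real.mul_self_sqrt (by norm_num)]
  obtain ⟨B, i1, i2, H, lam, h1, h2, h3, h4, h5⟩ := tower_ind (𝕜 := 𝕜) hp ht0 ht2 r
  let H' : Option B → Fin (2 ^ r) → ℝ := fun o k => o.elim (t ^ r) fun b => H b k
  let lam' : Option B → ℝ := fun o => o.elim ((5 / 4) ^ r) lam
  have hl : ∀ o, 1 ≤ lam' o := fun o => by
    rcases o with _ | b
    · exact one_le_pow₀ (by norm_num)
    · exact h3 b
  have e0 : ∀ c : Fin (2 ^ r) → 𝕜, lam' none ^ p * ‖ap H' c none‖ ^ p =
      ((5 / 4 * t) ^ r * ‖∑ k, c k‖) ^ p := fun c => by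
    simp only [ap, H', lam', Option.elim]
    rw [← Real.mul_rpow (by positivity) (norm_nonneg _), ← mul_sum, norm_mul, RCLike.norm_ofReal,
      abs_of_pos (by positivity), mul_pow, mul_assoc]
  refine ⟨Option B, inferInstance, inferInstance, H', lam', fun o o' => ?_, hl, fun c => ?_,
    fun c j => ?_, fun c => ?_⟩
  · have a2 : ∀ b, ∑ k : Fin (2 ^ r), H b k = 0 := fun b => by
      rw [Fin.sum_univ_eq_sum_range (H b), h2]
    rcases o with _ | b <;> rcases o' with _ | b'
    · have : (2 * t ^ 2) ^ r = 1 := by rw [ht2, one_pow]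
      simp only [H', Option.elim, sum_const, card_univ, Fintype.card_fin, nsmul_eq_mul, if_true]
      push_cast
      linear_combination this
    · simp [H', ← mul_sum, a2]
    · simp [H', ← sum_mul, a2]
    · simp only [H', Option.elim, Option.some.injEq]
      rw [Fin.sum_univ_eq_sum_range (fun k => H b k * H b' k), h1]
  · have a1 : ∀ k, ∑ o, lam' o * |H' o k| ≤ 11 := fun k => by
      rw [Fintype.sum_option]
      have b1 := h4 k
      have b2 : (5 / 4 * t) ^ r ≤ 1 := pow_le_one₀ (by positivity) (by nlinarith)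
      have b3 : (0 : ℝ) ≤ (9 / 10) ^ r := by positivity
      simp only [H', lam', Option.elim]
      rw [abs_of_pos (by positivity), ← mul_pow]
      linarith
    calc _ = ∑ o, (lam' o * ‖ap H' c o‖) ^ p := sum_congr rfl fun o _ =>
          (Real.mul_rpow (by linarith [hl o]) (norm_nonneg _)).symm
      _ ≤ (∑ o, lam' o * ‖ap H' c o‖) ^ p :=
          sum_rpow_le _ _ (fun o => by have := hl o; positivity) hp
      _ ≤ (11 * ∑ k, ‖c k‖) ^ p := by
          refine Real.rpow_le_rpow (sum_nonneg fun o _ => by have := hl o; positivity) ?_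
            (by linarith)
          calc _ ≤ ∑ o, ∑ k, lam' o * |H' o k| * ‖c k‖ := sum_le_sum fun o _ => by
                simp only [mul_assoc]
                rw [← mul_sum]
                refine mul_le_mul_of_nonneg_left ((norm_sum_le _ _).trans (le_of_eq ?_))
                  (by linarith [hl o])
                simp only [norm_mul, RCLike.norm_ofReal]
            _ ≤ _ := by
                rw [sum_comm, mul_sum]
                refine sum_le_sum fun k _ => ?_
                rw [← sum_mul]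
                exact mul_le_mul_of_nonneg_right (a1 k) (norm_nonneg _)
      _ ≤ _ := by
          rw [Real.mul_rpow (by norm_num) (by positivity)]
          refine mul_le_mul_of_nonneg_right ?_ (by positivity)
          nlinarith
  · let c' : ℕ → 𝕜 := fun k => if h : k < 2 ^ r then c ⟨k, h⟩ else 0
    have e1 : ∀ k : Fin (2 ^ r), c' k = c k := fun k => dif_pos k.2
    have a1 := h5 c' j
    simp only [← Fin.sum_univ_eq_sum_range, ini, e1] at a1
    rw [Fintype.sum_option, Fintype.sum_option, e0, e0]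
    simp only [ap, H', lam', Option.elim]
    have p1 : 0 ≤ ∑ b, lam b ^ p * ‖∑ k : Fin (2 ^ r), (H b k : 𝕜) * c k‖ ^ p :=
      sum_nonneg fun b _ => by have := h3 b; positivity
    have p2 : 0 ≤ ((5 / 4 * t) ^ r * ‖∑ k, c k‖) ^ p := by positivity
    have p3 : 0 ≤ ((5 / 4 * t) ^ r * ‖∑ k : Fin (2 ^ r), if (k : ℕ) < j then c k else 0‖) ^ p := by
      positivity
    have p4 : (90 : ℝ) * 9 ^ p ≤ 100 * 9 ^ p * 9 ^ p := by nlinarith
    nlinarith [mul_le_mul_of_nonneg_right p4 p2]
  · rw [Fintype.sum_option, e0, mul_pow, htr, mul_assoc, div_eq_inv_mul ‖_‖]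
    exact le_add_of_nonneg_right (sum_nonneg fun b _ => by have := hl (some b); positivity)

end Pool.Agent.Lib.MP_a2b538_an.LP
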