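import Mathlib
import Pool.Agent.Lib.MP_a2b538_an.LP.Frame
import Pool.Agent.Lib.MP_a2b538_an.LP.Tower
import Pool.Agent.Lib.MP_a2b538_an.LP.Design

namespace Pool.Agent.Lib.MP_a2b538_an.LP

open Finset

variable {𝕜 : Type} [RCLike 𝕜] {p : ℝ}

/-- a finite quasi-greedy basis of a complemented subspace of a finite `p`-sum, with a set size
at which every coordinate projection has norm above `M` -/
structure Blk (𝕜 : Type) [RCLike 𝕜] (p C M : ℝ) {V Ω : Type} [Fintype V] [DecidableEq V]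
    [Fintype Ω] (I : Ω → V → ℝ) (R : V → Ω → ℝ) : Prop where
  inv : ∀ x : V → 𝕜, ap R (ap I x) = x
  proj : ∀ v : Ω → 𝕜, nrm p (ap I (ap R v)) ≤ C * nrm p v
  gr : ∀ (a : V → 𝕜) (G : Finset V), (∀ n ∈ G, ∀ k, k ∉ G → ‖a k‖ ≤ ‖a n‖) →
    nrm p (ap I (cut G a)) ≤ C * nrm p (ap I a)
  up : ∀ j, nrm p (ap I (Pi.single j (1 : 𝕜))) ≤ C
  low : ∀ (a : V → 𝕜) j, ‖a j‖ ≤ C * nrm p (ap I a)
  bad : ∃ s ≤ Fintype.card V, ∀ A : Finset V, A.card = s →
    ∃ a : V → 𝕜, M * nrm p (ap I a) < nrm p (ap I (cut A a))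

theorem nrm_le_of {V : Type} [Fintype V] (hp : 1 ≤ p) {C t : ℝ} (hC : 1 ≤ C) (ht : 0 ≤ t)
    {u : V → 𝕜} (h : En p u ≤ C * t ^ p) : nrm p u ≤ C * t := by
  rw [nrm_le_iff (by linarith) _ (by positivity), Real.mul_rpow (by linarith) ht]
  refine h.trans (mul_le_mul_of_nonneg_right ?_ (by positivity))
  exact Real.self_le_rpow_of_one_le hC hp

theorem sqrt_rpow {x : ℝ} (hx : 0 ≤ x) (p : ℝ) : √x ^ p = x ^ (p / 2) := by
  rw [← sq_rpow_half (Real.sqrt_nonneg x), Real.sq_sqrt hx]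

theorem bad_vec {V T : Type} [Fintype V] [DecidableEq V] [DecidableEq T] {m : ℕ}
    (h : T × Fin m → V → ℝ) {ε : ℝ} (hε : 0 ≤ ε) (h1 : ∀ l, ∑ v, |h l v| * |h l v| = 1)
    (h2 : ∀ l l', l ≠ l' → ∑ v, |h l v| * |h l' v| ≤ ε) (A : Finset V) (τ : T)
    (h3 : ∀ k, 1 / 4 ≤ ∑ v ∈ A, h (τ, k) v ^ 2 ∧ ∑ v ∈ A, h (τ, k) v ^ 2 ≤ 3 / 4) :
    ∃ x : V → ℝ, ∑ v, x v ^ 2 ≤ m * (1 + m * ε) ∧ (∀ l, |∑ v, h l v * x v| ≤ m * ε) ∧
      ∀ k, 3 / 16 - m * ε ≤ ∑ v, h (τ, k) v * cut A x v := by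
  let α : Fin m → ℝ := fun k => ∑ v ∈ A, h (τ, k) v ^ 2
  have key : ∀ (φ : Fin m → V → ℝ), (∀ k v, |φ k v| ≤ 1) → ∀ l,
      |∑ v, h l v * ∑ k, h (τ, k) v * φ k v -
        if l.1 = τ then ∑ v, h l v ^ 2 * φ l.2 v else 0| ≤ m * ε := by
    intro φ hφ l
    have e1 : ∑ v, h l v * ∑ k, h (τ, k) v * φ k v -
        (if l.1 = τ then ∑ v, h l v ^ 2 * φ l.2 v else 0) =
        ∑ k, if l = (τ, k) then 0 else ∑ v, h l v * (h (τ, k) v * φ k v) := by
      simp only [mul_sum]
      rw [sum_comm, sub_eq_iff_eq_add]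
      have : (if l.1 = τ then ∑ v, h l v ^ 2 * φ l.2 v else 0) =
          ∑ k, if l = (τ, k) then ∑ v, h l v * (h (τ, k) v * φ k v) else 0 := by
        obtain ⟨τ', k'⟩ := l
        by_cases c : τ' = τ
        · subst c; simp [sq, mul_assoc]
        · simp [c]
      rw [this, ← sum_add_distrib]
      exact sum_congr rfl fun k _ => by split_ifs <;> simp
    rw [e1]
    refine (abs_sum_le_sum_abs _ _).trans ((sum_le_card_nsmul _ _ ε fun k _ => ?_).trans (by simp))
    split_ifs with c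
    · simpa using hε
    · refine (abs_sum_le_sum_abs _ _).trans (le_trans (sum_le_sum fun v _ => ?_) (h2 _ _ c))
      rw [abs_mul, abs_mul]
      exact mul_le_mul_of_nonneg_left (mul_le_of_le_one_right (abs_nonneg _) (hφ k v))
        (abs_nonneg _)
  have e0 : ∀ l, ∑ v, h l v ^ 2 = 1 := fun l => by
    rw [← h1 l]; exact sum_congr rfl fun v _ => by rw [abs_mul_abs_self, sq]
  let φ : Fin m → V → ℝ := fun k v => (if v ∈ A then 1 else 0) - α k
  have hφ : ∀ k v, |φ k v| ≤ 1 := fun k v => by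
    have := h3 k
    simp only [φ, α]
    split_ifs <;> rw [abs_le] <;> constructor <;> linarith
  refine ⟨fun v => ∑ k, h (τ, k) v * φ k v, ?_, fun l => ?_, fun k => ?_⟩
  · calc _ ≤ ∑ v, ∑ k, ∑ k', |h (τ, k) v| * |h (τ, k') v| := sum_le_sum fun v _ => by
          rw [← sum_mul_sum, ← sq, sq_le_sq]
          refine ((abs_sum_le_sum_abs _ _).trans (sum_le_sum fun k _ => ?_)).trans (le_abs_self _)
          rw [abs_mul]
          exact mul_le_of_le_one_right (abs_nonneg _) (hφ k v)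
      _ = ∑ k, ∑ k', ∑ v, |h (τ, k) v| * |h (τ, k') v| := by
          rw [sum_comm]; exact sum_congr rfl fun k _ => sum_comm
      _ ≤ ∑ k : Fin m, ∑ k' : Fin m, ((if k = k' then 1 else 0) + ε) :=
          sum_le_sum fun k _ => sum_le_sum fun k' _ => by
            split_ifs with c
            · subst c; rw [h1]; linarith
            · rw [zero_add]; exact h2 _ _ fun e => c (Prod.ext_iff.1 e).2
      _ = _ := by simp [sum_add_distrib]; ring
  · have := key φ hφ l
    have e1 : (if l.1 = τ then ∑ v, h l v ^ 2 * φ l.2 v else 0) = 0 := by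
      split_ifs with c
      · obtain ⟨τ', k⟩ := l
        subst c
        simp only [φ, mul_sub, sum_sub_distrib, mul_ite, mul_one, mul_zero, sum_ite_mem, univ_inter,
          ← sum_mul, e0, one_mul, α, sub_self]
      · rfl
    rwa [e1, sub_zero] at this
  · have := key (fun k => cut A (φ k)) (fun k v => by
      unfold cut; split_ifs
      exacts [hφ k v, by simp]) (τ, k)
    have e1 : ∀ v, ∑ k, h (τ, k) v * cut A (φ k) v = cut A (fun v => ∑ k, h (τ, k) v * φ k v) v :=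
      fun v => by unfold cut; split_ifs <;> simp
    have e2 : ∑ v, h (τ, k) v ^ 2 * cut A (φ k) v = α k * (1 - α k) := by
      simp only [cut, mul_ite, mul_zero, sum_ite_mem, univ_inter]
      rw [sum_congr rfl (g := fun v => h (τ, k) v ^ 2 * (1 - α k)) fun v hv => by
        simp only [φ, if_pos hv], ← sum_mul]
    simp only [e1, if_true, e2] at this
    have a1 := h3 k
    have a2 : 3 / 16 ≤ α k * (1 - α k) := by simp only [α]; nlinarith [a1.1, a1.2]
    linarith [(abs_le.1 this).1]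

theorem psi (hp : 2 < p) : ∃ C, 1 ≤ C ∧ ∀ r : ℕ, ∃ (V B : Type) (_ : Fintype V) (_ : DecidableEq V)
    (_ : Fintype B) (_ : DecidableEq B) (g : B → V → ℝ) (lam : B → ℝ),
    (∀ b b', ∑ v, g b v * g b' v = if b = b' then 1 else 0) ∧ (∀ b, 1 ≤ lam b) ∧
    (∀ (a : V → 𝕜) (G : Finset V), (∀ n ∈ G, ∀ k, k ∉ G → ‖a k‖ ≤ ‖a n‖) →
      ∑ b, lam b ^ p * ‖ap g (cut G a) b‖ ^ p ≤
        C * (sq2 a ^ (p / 2) + ∑ b, lam b ^ p * ‖ap g a b‖ ^ p)) ∧
    (∀ (a : V → 𝕜) (D : Finset V) (t : ℝ), 0 ≤ t → (∀ j, ‖a j‖ ≤ t) → (∀ j, j ∉ D → a j = 0) →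
      ∑ b, lam b ^ p * ‖ap g a b‖ ^ p ≤ C * (t * √(D.card)) ^ p) ∧
    ∃ s ≤ Fintype.card V, ∀ A : Finset V, A.card = s → ∃ a : V → 𝕜,
      sq2 a ^ (p / 2) + ∑ b, lam b ^ p * ‖ap g a b‖ ^ p ≤ C * (2 * √(2 ^ r)) ^ p ∧
      ((5 / 4) ^ r * (√(2 ^ r) / 8)) ^ p ≤ ∑ b, lam b ^ p * ‖ap g (cut A a) b‖ ^ p := by
  have hp0 : 0 < p := by linarith
  obtain ⟨C, hC, ht⟩ := tower (𝕜 := 𝕜) (show 1 ≤ p by linarith)
  obtain ⟨S, hS, he⟩ := err (𝕜 := 𝕜) hp
  have c2 : (1 : ℝ) ≤ 2 ^ p := Real.one_le_rpow (by norm_num) hp0.le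
  have c3 : 1 ≤ 2 ^ p * S := by nlinarith
  have c4 : 2 * C ≤ 2 * C * (2 ^ p * S) := by nlinarith
  refine ⟨2 * C * (2 ^ p * S), by linarith, fun r => ?_⟩
  obtain ⟨m, hm⟩ : ∃ m : ℕ, m = 2 ^ r := ⟨_, rfl⟩
  have ht' := ht r
  rw [← hm] at ht'
  obtain ⟨B, i1, i2, H, lam, t1, t2, t3, t4, t5⟩ := ht'
  have hm0 : 0 < m := by rw [hm]; positivity
  have hm1 : (1 : ℝ) ≤ m := by exact_mod_cast hm0
  obtain ⟨ε, hε⟩ : ∃ ε : ℝ, ε = min (1 / 16) ((1 / m : ℝ) ^ ((p - 1) / (p - 2))) / m := ⟨_, rfl⟩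
  have hε0 : 0 < ε := by rw [hε]; positivity
  have hε1 : m * ε = min (1 / 16) ((1 / m : ℝ) ^ ((p - 1) / (p - 2))) := by rw [hε]; field_simp
  obtain ⟨V, j1, j2, T, j3, j4, η, ν, s, hν, hs, d1, d2, d3, d4, d5⟩ := design m hm0 hε0
  let h : T × Fin m → V → ℝ := fun l v => η l v / (ν * 2 ^ (l.2 : ℕ))
  have d0 : ∀ l v, |η l v| = η l v ^ 2 := fun l v => by
    rcases d1 l v with c | c
    · simp [c]
    · rw [← sq_abs, c]; simp
  have h1 : ∀ l l', ∑ v, h l v * h l' v = if l = l' then 1 else 0 := fun l l' => by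
    simp only [h, div_mul_div_comm, ← sum_div]
    split_ifs with c
    · subst c
      simp only [← sq, d2]
      exact div_self (by positivity)
    · rw [d3 _ _ c, zero_div]
  have h2 : ∀ l v, |h l v| = η l v ^ 2 / (ν * 2 ^ (l.2 : ℕ)) := fun l v => by
    simp only [h]; rw [abs_div, d0, abs_of_pos (by positivity)]
  obtain ⟨b1, -⟩ := bessel (𝕜 := 𝕜) h h1
  let g : T × B → V → ℝ := fun b v => ∑ k, H b.2 k * h (b.1, k) v
  let TW : (Fin m → 𝕜) → ℝ := fun c => ∑ b, lam b ^ p * ‖ap H c b‖ ^ p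
  have e1 : ∀ x : V → 𝕜, ∑ b : T × B, lam b.2 ^ p * ‖ap g x b‖ ^ p =
      ∑ τ, TW fun k => ap h x (τ, k) := fun x => by
    rw [Fintype.sum_prod_type]
    refine sum_congr rfl fun τ _ => sum_congr rfl fun b _ => ?_
    congr 3
    exact (congrFun (ap_ap H (fun k => h (τ, k)) x) b).symm
  have TW0 : ∀ c, 0 ≤ TW c := fun c => sum_nonneg fun b _ => by have := t2 b; positivity
  have TWa : ∀ c d, TW (c + d) ≤ 2 ^ p * (TW c + TW d) := fun c d => by
    simp only [TW, ap_add]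
    rw [← sum_add_distrib, mul_sum]
    refine sum_le_sum fun b _ => ?_
    rw [← mul_add, mul_left_comm]
    have := t2 b
    exact mul_le_mul_of_nonneg_left ((Real.rpow_le_rpow (norm_nonneg _) (norm_add_le _ _)
      hp0.le).trans (rpow_add_le (norm_nonneg _) (norm_nonneg _) hp0.le)) (by positivity)
  have small : ∀ w σ : ℝ, 0 < w → 0 < σ → ∃ j : ℕ, ∀ y z : V → 𝕜, (∀ v, ‖z v‖ ≤ w) →
      w * ∑ v, ‖y v‖ ≤ σ ^ 2 → sq2 y ≤ σ ^ 2 → sq2 z ≤ σ ^ 2 →
      ∑ τ, TW (fun k => if (k : ℕ) < j then ap h z (τ, k) else ap h y (τ, k)) ≤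
        2 * C * S * σ ^ p := by
    intro w σ hw hσ
    obtain ⟨j, hj⟩ := he (w * ν / σ) (by positivity)
    refine ⟨j, fun y z a1 a2 a3 a4 => ?_⟩
    have a5 := hj m T (fun l => if (l.2 : ℕ) < j then ap h z l else ap h y l) σ hσ.le
      (fun l hl => by
        simp only [if_pos hl]
        refine (norm_sum_le _ _).trans ?_
        calc _ ≤ ∑ v, η l v ^ 2 / (ν * 2 ^ (l.2 : ℕ)) * w := sum_le_sum fun v _ => by
              rw [norm_mul, RCLike.norm_ofReal, h2]
              exact mul_le_mul_of_nonneg_left (a1 v) (by positivity)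
          _ = _ := by rw [← sum_mul, ← sum_div, d2]; field_simp)
      (fun l hl => by
        simp only [if_neg hl]
        have c1 : ‖ap h y l‖ ≤ (∑ v, ‖y v‖) / (ν * 2 ^ (l.2 : ℕ)) := by
          rw [sum_div]
          refine (norm_sum_le _ _).trans (sum_le_sum fun v _ => ?_)
          rw [norm_mul, RCLike.norm_ofReal, h2, div_mul_eq_mul_div, ← d0]
          gcongr
          refine mul_le_of_le_one_left (norm_nonneg _) ?_
          rcases d1 l v with c | c <;> simp [c]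
        rw [le_div_iff₀ (by positivity)] at c1
        have c5 := (mul_le_mul_of_nonneg_left c1 hw.le).trans a2
        rw [div_mul_eq_mul_div, ← mul_div_assoc, div_le_iff₀ hσ]
        linarith)
    have a6 : sq2 (fun l : T × Fin m => if (l.2 : ℕ) < j then ap h z l else ap h y l) ≤
        2 * σ ^ 2 := by
      refine le_trans ?_ (show sq2 (ap h z) + sq2 (ap h y) ≤ _ by linarith [b1 z, b1 y])
      unfold sq2
      rw [← sum_add_distrib]
      refine sum_le_sum fun l _ => ?_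
      simp only
      split_ifs
      · exact le_add_of_nonneg_right (by positivity)
      · exact le_add_of_nonneg_left (by positivity)
    have a7 : σ ^ (p - 2) * σ ^ 2 = σ ^ p := by
      rw [← Real.rpow_two, ← Real.rpow_add hσ]; congr 1; ring
    refine (sum_le_sum fun τ _ => t3 _).trans ?_
    rw [← mul_sum]
    have a8 := mul_le_mul_of_nonneg_left a6 (show 0 ≤ S * σ ^ (p - 2) by positivity)
    have a9 : S * (σ ^ (p - 2) * sq2 fun l : T × Fin m =>
        if (l.2 : ℕ) < j then ap h z l else ap h y l) ≤ 2 * S * σ ^ p := by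
      rw [← a7]; linarith
    exact (mul_le_mul_of_nonneg_left (a5.trans a9) (by linarith)).trans (le_of_eq (by ring))
  refine ⟨V, T × B, j1, j2, inferInstance, inferInstance, g, fun b => lam b.2, fun b b' => ?_,
    fun b => t2 _, fun a G hG => ?_, fun a D t ht ha hD => ?_, s, by omega, fun A hA => ?_⟩
  · simp only [g, sum_mul_sum]
    rw [sum_comm, sum_congr rfl fun k _ => sum_comm]
    simp only [mul_mul_mul_comm (H _ _), ← mul_sum, h1, Prod.mk.injEq, ite_and]
    by_cases c : b.1 = b'.1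
    · simp [c, t1, Prod.ext_iff]
    · simp [c, Prod.ext_iff]
  · simp only [e1]
    have p1 : 0 ≤ sq2 a ^ (p / 2) := Real.rpow_nonneg (sq2_nonneg a) _
    have p2 : 0 ≤ ∑ τ, TW fun k => ap h a (τ, k) := sum_nonneg fun τ _ => TW0 _
    by_cases c0 : cut G a = a
    · rw [c0]; nlinarith
    by_cases c1 : G = ∅
    · have : cut G a = 0 := by funext v; simp [cut, c1]
      simp only [this, ap_zero, TW, Pi.zero_apply]
      simp only [ap, mul_zero, sum_const_zero, norm_zero, Real.zero_rpow hp0.ne']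
      exact mul_nonneg (by linarith) (add_nonneg p1 p2)
    obtain ⟨i, hi, hmin⟩ := exists_min_image G (fun n => ‖a n‖) (nonempty_iff_ne_empty.2 c1)
    have hw : 0 < ‖a i‖ := norm_pos_iff.2 fun c => c0 (funext fun v => by
      unfold cut
      split_ifs with hv
      · rfl
      · simpa [c, eq_comm] using hG i hi v hv)
    have hσ : 0 < sq2 a := (pow_pos hw 2).trans_le
      (single_le_sum (f := fun j => ‖a j‖ ^ 2) (fun _ _ => by positivity) (mem_univ i))
    obtain ⟨j, hj⟩ := small ‖a i‖ √(sq2 a) hw (by positivity)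
    have a1 := hj (cut G a) (cut G a - a) (fun v => by
        simp only [cut, Pi.sub_apply]
        split_ifs with hv
        · simp
        · simpa using hG i hi v hv)
      (by
        rw [Real.sq_sqrt hσ.le, mul_sum]
        refine sum_le_sum fun v _ => ?_
        unfold cut
        split_ifs with hv
        · rw [sq]; exact mul_le_mul_of_nonneg_right (hmin v hv) (norm_nonneg _)
        · simp)
      (by
        rw [Real.sq_sqrt hσ.le]
        exact sq2_mono fun v => by unfold cut; split_ifs <;> simp)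
      (by
        rw [Real.sq_sqrt hσ.le]
        exact sq2_mono fun v => by simp only [cut, Pi.sub_apply]; split_ifs <;> simp)
    rw [sqrt_rpow hσ.le] at a1
    have a2 : ∑ τ, TW (fun k => ap h (cut G a) (τ, k)) ≤ ∑ τ, 2 ^ p * (C * TW (fun k =>
        ap h a (τ, k)) + TW (fun k => if (k : ℕ) < j then ap h (cut G a - a) (τ, k) else
          ap h (cut G a) (τ, k))) := sum_le_sum fun τ _ => by
      refine le_trans (le_of_eq ?_) ((TWa _ _).trans
        (mul_le_mul_of_nonneg_left (add_le_add (t4 _ j) le_rfl) (by positivity)))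
      congr 1
      funext k
      simp only [Pi.add_apply, ap_sub, Pi.sub_apply]
      split_ifs <;> simp
    rw [← mul_sum, sum_add_distrib, ← mul_sum] at a2
    have a3 := mul_le_mul_of_nonneg_left a1 (show (0 : ℝ) ≤ 2 ^ p by positivity)
    have a4 : 2 ^ p * C ≤ 2 * C * (2 ^ p * S) := by
      nlinarith [mul_le_mul_of_nonneg_left hS (show 0 ≤ 2 ^ p * C by positivity)]
    nlinarith [mul_le_mul_of_nonneg_right a4 p2]
  · simp only [e1]
    by_cases c0 : a = 0
    · simp only [c0, ap_zero, TW, Pi.zero_apply]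
      simp only [ap, mul_zero, sum_const_zero, norm_zero, Real.zero_rpow hp0.ne']
      positivity
    obtain ⟨i, hi⟩ := Function.ne_iff.1 c0
    have hw : 0 < t := (norm_pos_iff.2 hi).trans_le (ha i)
    have hD0 : (0 : ℝ) < D.card := by
      exact_mod_cast card_pos.2 ⟨i, by_contra fun c => hi (hD i c)⟩
    obtain ⟨j, hj⟩ := small t (t * √(D.card)) hw (by positivity)
    have a0 : ∀ n : ℕ, n ≠ 0 → ∑ v, ‖a v‖ ^ n ≤ D.card * t ^ n := fun n hn => by
      rw [← sum_subset (subset_univ D) fun v _ hv => by simp [hD v hv, hn], ← nsmul_eq_mul]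
      exact sum_le_card_nsmul _ _ _ fun v _ => pow_le_pow_left₀ (norm_nonneg _) (ha v) n
    have a2 : sq2 a ≤ (t * √(D.card)) ^ 2 := by
      rw [mul_pow, Real.sq_sqrt hD0.le, mul_comm]; exact a0 2 two_ne_zero
    have a1 := hj a a ha (by
      have := a0 1 one_ne_zero
      simp only [pow_one] at this
      rw [mul_pow, Real.sq_sqrt hD0.le]
      nlinarith) a2 a2
    simp only [ite_self] at a1
    refine a1.trans (mul_le_mul_of_nonneg_right ?_ (by positivity))
    nlinarith [mul_le_mul_of_nonneg_left c2 (show 0 ≤ C * S by positivity)]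
  · obtain ⟨τ, hτ⟩ := d5 A hA
    obtain ⟨x, x1, x2, x3⟩ := bad_vec h hε0.le
      (fun l => by simp only [abs_mul_abs_self, h1, if_true])
      (fun l l' c => by
        simp only [h2, div_mul_div_comm, ← sum_div]
        rw [div_le_iff₀ (by positivity)]
        exact d4 l l' c) A τ (fun k => by
        simp only [h, div_pow, ← sum_div]
        rw [le_div_iff₀ (by positivity), div_le_iff₀ (by positivity)]
        constructor <;> linarith [hτ k])
    have q1 : m * ε ≤ 1 / 16 := hε1 ▸ min_le_left _ _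
    have q2 : m * ε ≤ (1 / m : ℝ) ^ ((p - 1) / (p - 2)) := hε1 ▸ min_le_right _ _
    have e2 : ∀ (y : V → ℝ) l, ap h (fun v => (y v : 𝕜)) l = ((∑ v, h l v * y v : ℝ) : 𝕜) :=
      fun y l => by simp [ap]
    have em : (m : ℝ) = 2 ^ r := by rw [hm]; push_cast; rfl
    refine ⟨fun v => (x v : 𝕜), ?_, ?_⟩
    · simp only [e1]
      have a1 : sq2 (fun v => (x v : 𝕜)) ≤ 4 * m := by
        simp only [sq2, RCLike.norm_ofReal, sq_abs]
        nlinarith
      have a2 := hold hp (ap h fun v => (x v : 𝕜)) (fun _ => 1 / m) (fun _ => by positivity) (D := 1)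
        fun l => by
          rw [e2, RCLike.norm_ofReal, one_mul]
          refine (Real.rpow_le_rpow (abs_nonneg _) ((x2 l).trans q2) (by linarith)).trans
            (le_of_eq ?_)
          rw [← Real.rpow_mul (by positivity), div_mul_cancel₀ _ (by linarith)]
      rw [sum_const, card_univ, Fintype.card_fin, nsmul_eq_mul, mul_one_div_cancel (by linarith),
        Real.one_rpow, one_mul, one_mul] at a2
      have a3 : (2 * √(2 ^ r)) ^ p = (4 * m : ℝ) ^ (p / 2) := by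
        rw [← sq_rpow_half (by positivity), mul_pow, Real.sq_sqrt (by positivity), em]; norm_num
      have a4 : (4 * m : ℝ) ≤ (4 * m : ℝ) ^ (p / 2) :=
        Real.self_le_rpow_of_one_le (by linarith) (by linarith)
      have a5 := Real.rpow_le_rpow (sq2_nonneg _) a1 (show 0 ≤ p / 2 by linarith)
      have a6 := sum_le_sum fun τ (_ : τ ∈ univ) => t3 fun k => ap h (fun v => (x v : 𝕜)) (τ, k)
      rw [← mul_sum] at a6
      have a7 := mul_le_mul_of_nonneg_left (a2.trans ((b1 _).trans (a1.trans a4)))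
        (show 0 ≤ C by linarith)
      rw [a3]
      have a8 : 0 ≤ (4 * m : ℝ) ^ (p / 2) := by positivity
      nlinarith [mul_le_mul_of_nonneg_right c4 a8, mul_le_mul_of_nonneg_right hC a8]
    · simp only [e1]
      refine le_trans ?_ ((t5 _).trans (single_le_sum (f := fun τ => TW fun k =>
        ap h (cut A fun v => (x v : 𝕜)) (τ, k)) (fun _ _ => TW0 _) (mem_univ τ)))
      have e3 : cut A (fun v => (x v : 𝕜)) = fun v => ((cut A x v : ℝ) : 𝕜) := by
        funext v; unfold cut; split_ifs <;> simp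
      simp only [e3, e2]
      rw [← RCLike.ofReal_sum, RCLike.norm_ofReal]
      have a1 : (m : ℝ) / 8 ≤ ∑ k, ∑ v, h (τ, k) v * cut A x v := by
        refine le_trans (by simp [div_eq_mul_inv]) (card_nsmul_le_sum univ _ (1 / 8 : ℝ)
          fun k _ => by linarith [x3 k])
      gcongr (_ * ?_) ^ p
      rw [le_div_iff₀ (by positivity), div_mul_eq_mul_div, Real.mul_self_sqrt (by positivity), ← em]
      exact a1.trans (le_abs_self _)

theorem exists_blk (hp : 2 < p) : ∃ C, 1 ≤ C ∧ ∀ M : ℝ, ∃ (V Ω : Type) (_ : Fintype V)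
    (_ : DecidableEq V) (_ : Fintype Ω) (I : Ω → V → ℝ) (R : V → Ω → ℝ), Blk 𝕜 p C M I R ∧
    (∀ (a : V → 𝕜) (D : Finset V) (t : ℝ), 0 ≤ t → (∀ j, ‖a j‖ ≤ t) → (∀ j, j ∉ D → a j = 0) →
      nrm p (ap I a) ≤ C * (t * √(D.card))) ∧ ∀ a : V → 𝕜, √(sq2 a) ≤ C * nrm p (ap I a) := by
  have hp0 : 0 < p := by linarith
  have hp1 : 1 ≤ p := by linarith
  obtain ⟨C1, hC1, hf⟩ := frame (𝕜 := 𝕜) hp
  obtain ⟨C2, hC2, hs⟩ := psi (𝕜 := 𝕜) hp
  have k1 : C1 ≤ C1 * C1 := by nlinarith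
  have k2 : C1 * C1 ≤ C1 * C1 * (1 + C2) := by nlinarith
  have k3 : C1 * (1 + C2) ≤ C1 * C1 * (1 + C2) := by nlinarith
  set C := C1 * C1 * (1 + C2) with hC
  have k0 : 1 ≤ C := by linarith
  refine ⟨C, k0, fun M => ?_⟩
  obtain ⟨r, hr⟩ := pow_unbounded_of_one_lt (16 * (C * C * M)) (show (1 : ℝ) < 5 / 4 by norm_num)
  obtain ⟨V, B, i1, i2, i3, i4, g, lam, g1, g2, g3, g4, s, hs1, g5⟩ := hs r
  obtain ⟨Ω, i5, I, R, f1, f2, f3⟩ := hf V B g lam g1 g2
  have f4 : ∀ x : V → 𝕜, sq2 x ^ (p / 2) + ∑ b, lam b ^ p * ‖ap g x b‖ ^ p ≤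
      C1 * nrm p (ap I x) ^ p := fun x => by
    have := f3 (ap I x)
    rwa [f1, ← nrm_rpow hp0] at this
  have p1 : ∀ x : V → 𝕜, 0 ≤ sq2 x ^ (p / 2) := fun x => Real.rpow_nonneg (sq2_nonneg x) _
  have p2 : ∀ x : V → 𝕜, 0 ≤ ∑ b, lam b ^ p * ‖ap g x b‖ ^ p := fun x =>
    sum_nonneg fun b _ => by have := g2 b; positivity
  have p3 : ∀ {T : Type} [Fintype T] (x : T → 𝕜), 0 ≤ nrm p x ^ p := fun x =>
    Real.rpow_nonneg (nrm_nonneg x) _
  have le1 : ∀ {x t : ℝ}, 0 ≤ t → x ^ p ≤ C1 * t ^ p → x ≤ C * t := fun {x t} ht h => by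
    refine le_of_not_gt fun c => absurd h (not_le.2 (lt_of_le_of_lt ?_
      (Real.rpow_lt_rpow (by positivity) c hp0)))
    rw [Real.mul_rpow (by linarith) ht]
    exact mul_le_mul_of_nonneg_right ((by linarith : C1 ≤ C).trans
      (Real.self_le_rpow_of_one_le k0 hp1)) (by positivity)
  have two : ∀ a : V → 𝕜, √(sq2 a) ≤ C * nrm p (ap I a) := fun a =>
    le1 (nrm_nonneg _) (by rw [sqrt_rpow (sq2_nonneg a)]; linarith [f4 a, p2 a])
  have flat : ∀ (a : V → 𝕜) (D : Finset V) (t : ℝ), 0 ≤ t → (∀ j, ‖a j‖ ≤ t) →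
      (∀ j, j ∉ D → a j = 0) → nrm p (ap I a) ≤ C * (t * √(D.card)) := fun a D t ht ha hD => by
    refine nrm_le_of hp1 k0 (by positivity) ((f2 a).trans ?_)
    have a1 : sq2 a ^ (p / 2) ≤ (t * √(D.card)) ^ p := by
      rw [← sq_rpow_half (x := t * √(D.card)) (by positivity)]
      refine Real.rpow_le_rpow (sq2_nonneg a) ?_ (by linarith)
      rw [mul_pow, Real.sq_sqrt (Nat.cast_nonneg _), mul_comm, sq2,
        ← sum_subset (subset_univ D) fun v _ hv => by simp [hD v hv], ← nsmul_eq_mul]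
      exact sum_le_card_nsmul _ _ _ fun v _ => pow_le_pow_left₀ (norm_nonneg _) (ha v) 2
    have a2 := mul_le_mul_of_nonneg_left (add_le_add a1 (g4 a D t ht ha hD))
      (show 0 ≤ C1 by linarith)
    have a3 : 0 ≤ (t * √(D.card)) ^ p := by positivity
    nlinarith [mul_le_mul_of_nonneg_right k3 a3]
  refine ⟨V, Ω, i1, i2, i5, I, R, ⟨f1, fun v => ?_, fun a G hG => ?_, fun j => ?_, fun a j => ?_,
    s, hs1, fun A hA => ?_⟩, flat, two⟩
  · refine nrm_le_of hp1 k0 (nrm_nonneg _) ((f2 _).trans ?_)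
    have a1 := mul_le_mul_of_nonneg_left (f3 v) (show 0 ≤ C1 by linarith)
    rw [← nrm_rpow hp0] at a1
    nlinarith [mul_le_mul_of_nonneg_right k2 (p3 v)]
  · refine nrm_le_of hp1 k0 (nrm_nonneg _) ((f2 _).trans ?_)
    have a1 : sq2 (cut G a) ^ (p / 2) ≤ sq2 a ^ (p / 2) := Real.rpow_le_rpow (sq2_nonneg _)
      (sq2_mono fun v => by unfold cut; split_ifs <;> simp) (by linarith)
    have a2 : sq2 (cut G a) ^ (p / 2) + ∑ b, lam b ^ p * ‖ap g (cut G a) b‖ ^ p ≤
        (1 + C2) * (C1 * nrm p (ap I a) ^ p) := by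
      have := mul_le_mul_of_nonneg_left (f4 a) (show 0 ≤ 1 + C2 by linarith)
      linarith [g3 a G hG, p2 a]
    exact (mul_le_mul_of_nonneg_left a2 (by linarith)).trans (le_of_eq (by rw [hC]; ring))
  · simpa using flat (Pi.single j 1) {j} 1 zero_le_one
      (fun k => by rw [Pi.single_apply]; split_ifs <;> simp)
      fun k hk => Pi.single_eq_of_ne (by simpa using hk) _
  · refine le_trans (Real.le_sqrt_of_sq_le ?_) (two a)
    exact single_le_sum (f := fun j => ‖a j‖ ^ 2) (fun _ _ => by positivity) (mem_univ j)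
  · obtain ⟨a, a1, a2⟩ := g5 A hA
    refine ⟨a, ?_⟩
    have q0 : (0 : ℝ) < √(2 ^ r) := by positivity
    have a3 : nrm p (ap I a) ≤ C * (2 * √(2 ^ r)) := by
      refine nrm_le_of hp1 k0 (by positivity) ((f2 _).trans ?_)
      have b1 := mul_le_mul_of_nonneg_left a1 (show 0 ≤ C1 by linarith)
      have b2 : 0 ≤ (2 * √(2 ^ r)) ^ p := by positivity
      nlinarith [mul_le_mul_of_nonneg_right k3 b2]
    have a4 := le1 (nrm_nonneg (ap I (cut A a))) (a2.trans (by linarith [f4 (cut A a), p1 (cut A a)]))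
    have a5 := mul_lt_mul_of_pos_right hr (show 0 < √(2 ^ r) / 8 by positivity)
    have a6 : (0 : ℝ) < (5 / 4) ^ r * (√(2 ^ r) / 8) := by positivity
    refine lt_of_mul_lt_mul_left (a := C) (lt_of_lt_of_le ?_ a4) (by linarith)
    rcases le_total M 0 with c | c
    · have := mul_nonneg (mul_nonneg (show 0 ≤ C by linarith) (neg_nonneg.2 c))
        (nrm_nonneg (p := p) (ap I a))
      linarith
    · have := mul_le_mul_of_nonneg_left a3 (show 0 ≤ C * M by positivity)
      linarith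

end Pool.Agent.Lib.MP_a2b538_an.LP
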