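import Mathlib
import Pool.Agent.Lib.MP_a2b538_an.LP.Block

namespace Pool.Agent.Lib.MP_a2b538_an.LP

open Finset

variable {𝕜 : Type} [RCLike 𝕜] {p q C M : ℝ} {V Ω : Type} [Fintype V] [DecidableEq V] [Fintype Ω]
  {I : Ω → V → ℝ} {R : V → Ω → ℝ}

omit [DecidableEq V] in
theorem pair_le (h : q.HolderConjugate p) (inv : ∀ x : V → 𝕜, ap R (ap I x) = x) (b a : V → 𝕜) :
    ‖∑ j, b j * a j‖ ≤ nrm q (ap (fun ω j => R j ω) b) * nrm p (ap I a) := by
  nth_rewrite 1 [← inv a]
  rw [ap_dual]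
  exact holder h _ _

omit [DecidableEq V] in
theorem dual_le (h : q.HolderConjugate p)
    (proj : ∀ v : Ω → 𝕜, nrm p (ap I (ap R v)) ≤ C * nrm p v) (hC : 0 ≤ C) {L : ℝ} (hL : 0 ≤ L)
    (b : V → 𝕜) (hb : ∀ a : V → 𝕜, ‖∑ j, b j * a j‖ ≤ L * nrm p (ap I a)) :
    nrm q (ap (fun ω j => R j ω) b) ≤ L * C := by
  refine nrm_le_of_dual h (by positivity) _ fun v => ?_
  rw [← ap_dual, mul_assoc]
  exact (hb _).trans (mul_le_mul_of_nonneg_left (proj v) hL)

theorem exists_greedy (a : V → 𝕜) {s : ℕ} (hs : s ≤ Fintype.card V) :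
    ∃ B : Finset V, B.card = s ∧ ∀ n ∈ B, ∀ k, k ∉ B → ‖a k‖ ≤ ‖a n‖ := by
  obtain ⟨B, hB, hmax⟩ := exists_max_image (powersetCard s univ) (fun B => ∑ j ∈ B, ‖a j‖)
    (powersetCard_nonempty.2 hs)
  have hc := (mem_powersetCard.1 hB).2
  refine ⟨B, hc, fun n hn k hk => ?_⟩
  have hk' : k ∉ B.erase n := fun h => hk (mem_of_mem_erase h)
  have := hmax (insert k (B.erase n)) (mem_powersetCard.2 ⟨subset_univ _, by
    rw [card_insert_of_notMem hk', card_erase_add_one hn, hc]⟩)
  rw [sum_insert hk', ← add_sum_erase B _ hn] at this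
  linarith

theorem Blk.dual (h : q.HolderConjugate p) (hC : 1 ≤ C) (hM : 0 ≤ M) (b : Blk 𝕜 p C (M * C) I R)
    (flat : ∀ (a : V → 𝕜) (D : Finset V) (t : ℝ), 0 ≤ t → (∀ j, ‖a j‖ ≤ t) →
      (∀ j, j ∉ D → a j = 0) → nrm p (ap I a) ≤ C * (t * √(D.card)))
    (two : ∀ a : V → 𝕜, √(sq2 a) ≤ C * nrm p (ap I a)) :
    Blk 𝕜 q (3 * C ^ 3) M (fun ω j => R j ω) fun j ω => I ω j := by
  have hC0 : 0 ≤ C := by linarith
  have k1 : C ≤ C ^ 2 := le_self_pow₀ hC two_ne_zero
  have k2 : C ^ 2 ≤ C ^ 3 := pow_le_pow_right₀ hC (by norm_num)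
  have inv' : ∀ y : V → 𝕜, ap (fun j ω => I ω j) (ap (fun ω j => R j ω) y) = y := fun y => by
    funext j
    have e1 := ap_dual I (ap (fun ω j => R j ω) y) (Pi.single j (1 : 𝕜))
    rw [← ap_dual, b.inv] at e1
    simpa [Pi.single_apply] using e1.symm
  have proj' : ∀ u : Ω → 𝕜, nrm q (ap (fun ω j => R j ω) (ap (fun j ω => I ω j) u)) ≤
      C * nrm q u := fun u => by
    rw [mul_comm]
    refine dual_le h b.proj hC0 (nrm_nonneg _) _ fun a => ?_
    rw [← ap_dual]
    exact holder h _ _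
  have pr := pair_le h b.inv
  have ec : ∀ (A : Finset V) (y a : V → 𝕜), ∑ j, cut A y j * a j = ∑ j, y j * cut A a j :=
    fun A y a => sum_congr rfl fun j _ => by unfold cut; split_ifs <;> simp
  refine ⟨inv', fun u => (proj' u).trans (mul_le_mul_of_nonneg_right (by linarith) (nrm_nonneg _)),
    fun y A hA => ?_, fun j => ?_, fun y j => ?_, ?_⟩
  · set N := nrm q (ap (fun ω j => R j ω) y) with hN
    have hN0 : 0 ≤ N := nrm_nonneg _
    refine (dual_le h b.proj hC0 (L := 3 * C ^ 2 * N) (by positivity) _ fun a => ?_).trans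
      (le_of_eq (by ring))
    set n := nrm p (ap I a) with hn
    have hn0 : 0 ≤ n := nrm_nonneg _
    rcases A.eq_empty_or_nonempty with rfl | hne
    · simp only [cut, notMem_empty, if_false, zero_mul, sum_const_zero, norm_zero]
      positivity
    obtain ⟨B, hB, hG⟩ := exists_greedy a (card_le_univ A)
    have hs : (0 : ℝ) < A.card := by exact_mod_cast card_pos.2 hne
    have hr : 0 < √(A.card : ℝ) := by positivity
    have e1 : ∑ j, cut A y j * a j = ∑ j, y j * cut B a j + ∑ j, y j * cut (A \ B) a j -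
        ∑ j ∈ B \ A, y j * a j := by
      rw [← univ_inter (B \ A), ← sum_ite_mem, ← sum_add_distrib, ← sum_sub_distrib]
      refine sum_congr rfl fun j _ => ?_
      by_cases c1 : j ∈ A <;> by_cases c2 : j ∈ B <;> simp [cut, c1, c2]
    have a1 := (pr y (cut B a)).trans (mul_le_mul_of_nonneg_left (b.gr a B hG) hN0)
    have a2 : nrm p (ap I (cut (A \ B) a)) ≤ C * (C * n) := by
      refine (flat _ A (√(sq2 a) / √(A.card)) (by positivity) (fun j => ?_) fun j hj => by
        simp [cut, hj]).trans ?_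
      · unfold cut
        split_ifs with c
        · rw [← Real.sqrt_div (sq2_nonneg a)]
          refine Real.le_sqrt_of_sq_le ?_
          rw [le_div_iff₀' hs, ← hB, ← nsmul_eq_mul]
          exact (card_nsmul_le_sum B _ _ fun i hi => pow_le_pow_left₀ (norm_nonneg _)
            (hG i hi j (mem_sdiff.1 c).2) 2).trans
            (sum_le_sum_of_subset_of_nonneg (subset_univ B) fun _ _ _ => by positivity)
        · simp only [norm_zero]; positivity
      · rw [div_mul_cancel₀ _ hr.ne']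
        exact mul_le_mul_of_nonneg_left (two a) hC0
    have a3 := (pr y (cut (A \ B) a)).trans (mul_le_mul_of_nonneg_left a2 hN0)
    have a4 : ∀ k, k ∉ A → ‖y k‖ ≤ N * C / √(A.card) := fun k hk => by
      obtain ⟨θ, hθ⟩ := exists_phase y
      have c1 := (pr y (cut A θ)).trans (mul_le_mul_of_nonneg_left (flat _ A 1 zero_le_one
        (fun j => by unfold cut; split_ifs <;> simp [(hθ j).1]) fun j hj => if_neg hj) hN0)
      have c2 : ∑ j, y j * cut A θ j = ((∑ j ∈ A, ‖y j‖ : ℝ) : 𝕜) := by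
        simp only [cut, mul_ite, mul_zero, sum_ite_mem, univ_inter, (hθ _).2]
        push_cast; rfl
      rw [c2, RCLike.norm_ofReal, abs_of_nonneg (by positivity)] at c1
      have c3 := card_nsmul_le_sum A (fun j => ‖y j‖) _ fun i hi => hA i hi k hk
      rw [nsmul_eq_mul, ← Real.mul_self_sqrt hs.le] at c3
      rw [le_div_iff₀ hr]
      exact le_of_mul_le_mul_right (by linarith) hr
    have a5 : ∑ j ∈ B, ‖a j‖ ≤ √(A.card) * (C * n) := by
      refine le_trans ?_ (mul_le_mul_of_nonneg_left (two a) hr.le)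
      rw [← Real.sqrt_mul hs.le]
      refine Real.le_sqrt_of_sq_le ((sq_sum_le_card_mul_sum_sq).trans ?_)
      rw [hB]
      exact mul_le_mul_of_nonneg_left
        (sum_le_sum_of_subset_of_nonneg (subset_univ B) fun _ _ _ => by positivity) hs.le
    have a6 : ‖∑ j ∈ B \ A, y j * a j‖ ≤ N * C * (C * n) := by
      calc _ ≤ ∑ j ∈ B \ A, N * C / √(A.card) * ‖a j‖ :=
            (norm_sum_le _ _).trans (sum_le_sum fun j hj => by
              rw [norm_mul]
              exact mul_le_mul_of_nonneg_right (a4 j (mem_sdiff.1 hj).2) (norm_nonneg _))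
        _ ≤ N * C / √(A.card) * (√(A.card) * (C * n)) := by
            rw [← mul_sum]
            exact mul_le_mul_of_nonneg_left ((sum_le_sum_of_subset_of_nonneg sdiff_subset
              fun _ _ _ => norm_nonneg _).trans a5) (by positivity)
        _ = _ := by field_simp
    rw [e1]
    refine (norm_sub_le _ _).trans ((add_le_add (norm_add_le _ _) le_rfl).trans ?_)
    nlinarith [mul_le_mul_of_nonneg_right k1 (mul_nonneg hN0 hn0)]
  · refine (dual_le h b.proj hC0 hC0 _ fun a => ?_).trans (by nlinarith)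
    simpa [Pi.single_apply] using b.low a j
  · have := (pr y (Pi.single j 1)).trans (mul_le_mul_of_nonneg_left (b.up j) (nrm_nonneg _))
    simp only [Pi.single_apply, mul_ite, mul_one, mul_zero, sum_ite_eq', mem_univ, if_true] at this
    rw [mul_comm] at this
    exact this.trans (mul_le_mul_of_nonneg_right (by linarith) (nrm_nonneg _))
  · obtain ⟨s, hs, hb⟩ := b.bad
    refine ⟨s, hs, fun A hA => by_contra fun hn => ?_⟩
    push Not at hn
    obtain ⟨a, ha⟩ := hb A hA
    have := dual_le h.symm proj' hC0 (L := M * nrm p (ap I a)) (mul_nonneg hM (nrm_nonneg _))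
      (cut A a) fun y => by
        rw [ec]
        simp only [mul_comm (a _)]
        refine (pr _ _).trans ((mul_le_mul_of_nonneg_right (hn y) (nrm_nonneg _)).trans
          (le_of_eq (by ring)))
    exact absurd (ha.trans_le this) (by rw [mul_right_comm]; exact lt_irrefl _)

theorem exists_blk' (hp : 1 < p) (h2 : p ≠ 2) : ∃ C, 1 ≤ C ∧ ∀ M : ℝ, 0 ≤ M →
    ∃ (V Ω : Type) (_ : Fintype V) (_ : DecidableEq V) (_ : Fintype Ω) (I : Ω → V → ℝ)
      (R : V → Ω → ℝ), Blk 𝕜 p C M I R := by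
  rcases lt_or_gt_of_ne h2 with c | c
  · have h := Real.HolderConjugate.conjExponent hp
    have hq : 2 < p.conjExponent := by
      rw [Real.conjExponent, lt_div_iff₀ (by linarith)]; linarith
    obtain ⟨C, hC, hb⟩ := exists_blk (𝕜 := 𝕜) hq
    refine ⟨3 * C ^ 3, by linarith [one_le_pow₀ (n := 3) hC], fun M hM => ?_⟩
    obtain ⟨V, Ω, i1, i2, i3, I, R, b1, b2, b3⟩ := hb (M * C)
    exact ⟨V, Ω, i1, i2, i3, _, _, b1.dual h hC hM b2 b3⟩
  · obtain ⟨C, hC, hb⟩ := exists_blk (𝕜 := 𝕜) c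
    refine ⟨C, hC, fun M _ => ?_⟩
    obtain ⟨V, Ω, i1, i2, i3, I, R, b1, -⟩ := hb M
    exact ⟨V, Ω, i1, i2, i3, I, R, b1⟩

end Pool.Agent.Lib.MP_a2b538_an.LP
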