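import Mathlib
import Pool.Agent.Lib.MP_a2b538_an.LP.Dual
import Pool.Agent.Lib.MP_a2b538_an.LP.Gen
import Pool.Agent.Lib.MP_a2b538_an.LP.Slots

namespace Pool.Agent.Lib.MP_a2b538_an.LP

open Finset Filter Topology
open scoped ENNReal

variable {𝕜 : Type} [RCLike 𝕜]

/-- a real matrix as a continuous linear map -/
noncomputable def apL {V B : Type} [Fintype V] (g : B → V → ℝ) : (V → 𝕜) →L[𝕜] (B → 𝕜) :=
  LinearMap.toContinuousLinearMap
    { toFun := ap g
      map_add' := ap_add g
      map_smul' := fun c x => by funext b; simp [ap, mul_sum, mul_left_comm] }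

theorem apL_apply {V B : Type} [Fintype V] (g : B → V → ℝ) (x : V → 𝕜) : apL g x = ap g x := rfl

theorem exists_time {V J : Type} [Fintype V] (σ : ℕ ≃ J) (i : V → J) (hi : Function.Injective i)
    {s : ℕ} (hs : s ≤ Fintype.card V) : ∃ N, (univ.filter fun j => σ.symm (i j) < N).card = s := by
  classical
  have hex : ∃ N, s ≤ (univ.filter fun j => σ.symm (i j) < N).card :=
    ⟨(univ.sup fun j => σ.symm (i j)) + 1, by
      rwa [filter_true_of_mem fun j hj => Nat.lt_succ_of_le (le_sup (f := fun j => σ.symm (i j)) hj)]⟩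
  refine ⟨Nat.find hex, le_antisymm ?_ (Nat.find_spec hex)⟩
  rcases h : Nat.find hex with _ | N
  · simp
  · have h1 := Nat.find_min hex (show N < Nat.find hex by omega)
    have h2 : (univ.filter fun j => σ.symm (i j) < N + 1) ⊆
        (univ.filter fun j => σ.symm (i j) < N) ∪ univ.filter fun j => σ.symm (i j) = N :=
      fun j hj => by
        simp only [mem_union, mem_filter, mem_univ, true_and] at hj ⊢
        omega
    have h3 : (univ.filter fun j => σ.symm (i j) = N).card ≤ 1 := card_le_one.2 fun a ha b hb =>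
      hi (σ.symm.injective ((mem_filter.1 ha).2.trans (mem_filter.1 hb).2.symm))
    have := (card_le_card h2).trans (card_union_le _ _)
    omega

theorem le_of_rpow_le {p D x t : ℝ} (hp : 1 ≤ p) (hD : 1 ≤ D) (ht : 0 ≤ t)
    (h : x ^ p ≤ D * t ^ p) : x ≤ D * t := by
  refine le_of_not_gt fun c => absurd h (not_le.2 (lt_of_le_of_lt ?_
    (Real.rpow_lt_rpow (by positivity) c (by linarith))))
  rw [Real.mul_rpow (by linarith) ht]
  exact mul_le_mul_of_nonneg_right (Real.self_le_rpow_of_one_le hD hp) (by positivity)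

theorem exists_mod (p : ℝ≥0∞) [Fact (1 ≤ p)] (h1 : 1 < p) (h2 : p ≠ ∞) (h3 : p ≠ 2) :
    ∃ (e : ℕ → lp (fun _ : ℕ => 𝕜) p) (f : ℕ → lp (fun _ : ℕ => 𝕜) p →L[𝕜] 𝕜) (C : ℝ),
      Mod e f C := by
  classical
  have hq : 1 < p.toReal := by
    rw [← ENNReal.toReal_one]; exact ENNReal.toReal_strict_mono h2 h1
  have hq2 : p.toReal ≠ 2 := fun h => h3 ((ENNReal.toReal_eq_toReal_iff' h2 (by simp)).1 (by simpa))
  set q := p.toReal with hqd
  have hq0 : 0 < q := by linarith
  obtain ⟨C, hC, hb⟩ := exists_blk' (𝕜 := 𝕜) hq hq2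
  choose V W i1 i2 i3 I R b using fun m : ℕ => hb m (Nat.cast_nonneg m)
  have hW : Nonempty (W 0) := by
    obtain ⟨s, hs, h⟩ := (b 0).bad
    obtain ⟨A, -, hA⟩ := exists_subset_card_eq (s := (univ : Finset (V 0))) hs
    obtain ⟨a, ha⟩ := h A hA
    by_contra hn
    rw [not_nonempty_iff] at hn
    simp [nrm, En, hq0.ne'] at ha
  obtain ⟨emb, res, s1, s2, s3, s4, s5⟩ := exists_slots (𝕜 := 𝕜) p h2 W hW
  let P : ∀ m, (W m → 𝕜) →L[𝕜] (W m → 𝕜) := fun m => (apL (I m)).comp (apL (R m))
  have P0 : ∀ m v, P m v = ap (I m) (ap (R m) v) := fun _ _ => rfl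
  have P1 : ∀ m a, P m (ap (I m) a) = ap (I m) a := fun m a => by rw [P0, (b m).inv]
  have P2 : ∀ m v, P m (P m v) = P m v := fun m v => P1 m _
  have P3 : ∀ m v, ap (R m) (P m v) = ap (R m) v := fun m v => (b m).inv _
  have c1 : (1 : ℝ) ≤ C ^ q := Real.one_le_rpow hC hq0.le
  have c2 : (1 : ℝ) ≤ 2 ^ q := Real.one_le_rpow (by norm_num) hq0.le
  have up : ∀ {S T : Type} [Fintype S] [Fintype T] {u : S → 𝕜} {v : T → 𝕜},
      nrm q u ≤ C * nrm q v → En q u ≤ C ^ q * En q v := fun {S T} _ _ u v h => by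
    rwa [nrm_le_iff hq0 _ (mul_nonneg (by linarith) (nrm_nonneg _)),
      Real.mul_rpow (by linarith) (nrm_nonneg _), nrm_rpow hq0] at h
  have P4 : ∀ m v, En q (P m v) ≤ C ^ q * En q v := fun m v => up ((b m).proj v)
  obtain ⟨K, hK⟩ : ∃ K, K = 2 ^ q * (1 + C ^ q) := ⟨_, rfl⟩
  have k1 : C ^ q ≤ K := by rw [hK]; nlinarith
  have k0 : 1 ≤ K := by linarith
  have P5 : ∀ m v, En q (v - P m v) ≤ K * En q v := fun m v => by
    refine (En_sub_le hq0.le _ _).trans ?_
    rw [hK, mul_assoc]
    exact mul_le_mul_of_nonneg_left (by linarith [P4 m v]) (by linarith)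
  let J := Σ m : ℕ, V m ⊕ ℕ × W m
  let T : ∀ m : ℕ, ℕ → (W m → 𝕜) →ₗ[𝕜] lp (fun _ : ℕ => 𝕜) p := fun m n =>
    (emb m n).comp (LinearMap.id - (P m).toLinearMap) + (emb m (n + 1)).comp (P m).toLinearMap
  let U : ∀ m : ℕ, (V m → 𝕜) →ₗ[𝕜] lp (fun _ : ℕ => 𝕜) p := fun m =>
    (emb m 0).comp (apL (I m)).toLinearMap
  have T0 : ∀ m n v, T m n v = emb m n (v - P m v) + emb m (n + 1) (P m v) := fun _ _ _ => rfl
  have U0 : ∀ m a, U m a = emb m 0 (ap (I m) a) := fun _ _ => rfl
  let T' : ∀ m : ℕ, ℕ → lp (fun _ : ℕ => 𝕜) p →L[𝕜] (W m → 𝕜) := fun m n =>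
    (P m).comp (res m (n + 1)) + (res m n - (P m).comp (res m n))
  let U' : ∀ m : ℕ, lp (fun _ : ℕ => 𝕜) p →L[𝕜] (V m → 𝕜) := fun m => (apL (R m)).comp (res m 0)
  have T1 : ∀ m n x, T' m n x = P m (res m (n + 1) x) + (res m n x - P m (res m n x)) :=
    fun _ _ _ => rfl
  have U1 : ∀ m x, U' m x = ap (R m) (res m 0 x) := fun _ _ => rfl
  let e : J → lp (fun _ : ℕ => 𝕜) p := fun j =>
    j.2.elim (fun v => U j.1 (Pi.single v 1)) fun c => T j.1 c.1 (Pi.single c.2 1)
  let f : J → lp (fun _ : ℕ => 𝕜) p →L[𝕜] 𝕜 := fun j =>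
    j.2.elim (fun v => (ContinuousLinearMap.proj v).comp (U' j.1))
      fun c => (ContinuousLinearMap.proj c.2).comp (T' j.1 c.1)
  have f1 : ∀ m v x, f ⟨m, .inl v⟩ x = U' m x v := fun _ _ _ => rfl
  have f2 : ∀ m n w x, f ⟨m, .inr (n, w)⟩ x = T' m n x w := fun _ _ _ _ => rfl
  have lin : ∀ {S : Type} [Fintype S] [DecidableEq S] (L : (S → 𝕜) →ₗ[𝕜] lp (fun _ : ℕ => 𝕜) p)
      (a : S → 𝕜), ∑ j, a j • L (Pi.single j 1) = L a := fun L a => by
    simp only [← map_smul]
    rw [← map_sum]
    congr 1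
    funext j
    simp [Pi.single_apply]
  have UU : ∀ m a, U' m (U m a) = a := fun m a => by rw [U1, U0, s1, if_pos rfl, (b m).inv]
  have UT : ∀ m n v, U' m (T m n v) = 0 := fun m n v => by
    rw [U1, T0, map_add, s1, s1, if_neg (Nat.succ_ne_zero n).symm, add_zero]
    split_ifs
    · rw [ap_sub, P3, sub_self]
    · exact ap_zero _
  have TU : ∀ m n a, T' m n (U m a) = 0 := fun m n a => by
    rw [T1, U0, s1, s1, if_neg (Nat.succ_ne_zero n)]
    split_ifs <;> simp [P1]
  have TT : ∀ m n n' v, T' m n (T m n' v) = if n = n' then v else 0 := fun m n n' v => by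
    simp only [T1, T0, map_add, s1, add_left_inj]
    split_ifs <;> first | omega | simp [P2]
  have n1 : ∀ m n x, En q (res m n x) ≤ ‖x‖ ^ q := fun m n x => by
    simpa using s3 {(m, n)} id Function.injective_id x
  have n2 : ∀ m n v, ‖emb m n v‖ = nrm q v := fun m n v => by
    have := s4 {(m, n)} id Function.injective_id (Function.update (fun _ _ => 0) m fun _ => v)
    simp only [sum_singleton, id, Function.update_self] at this
    rw [nrm, ← this, ← Real.rpow_mul (norm_nonneg _), mul_one_div_cancel hq0.ne', Real.rpow_one]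
  have n3 : ∀ m n x, En q (T' m n x) ≤
      K * K * (En q (res m (n + 1) x) + En q (res m n x)) := fun m n x => by
    rw [T1]
    refine (En_add_le hq0.le _ _).trans ?_
    have a1 := (P4 m (res m (n + 1) x)).trans (mul_le_mul_of_nonneg_right k1 (En_nonneg _))
    have a2 : (2 : ℝ) ^ q ≤ K := by rw [hK]; nlinarith
    rw [mul_assoc, mul_add K]
    exact mul_le_mul a2 (add_le_add a1 (P5 _ _)) (add_nonneg (En_nonneg _) (En_nonneg _))
      (by linarith)
  obtain ⟨D, hD⟩ : ∃ D, D = 2 * (K * K * K) + C * C := ⟨_, rfl⟩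
  have k2 : K ≤ K * K := by nlinarith
  have k3 : K * K ≤ K * K * K := by nlinarith
  have k4 : C ≤ C * C := by nlinarith
  have d0 : 1 ≤ D := by linarith
  have hM : Mod e f (3 * D) := by
    refine ⟨by linarith, s5 _ fun m n v => ?_, ?_, ?_, ?_, fun x A hA => ?_, fun σ M => ?_⟩
    · have a1 : ∀ a, U m a ∈ Submodule.span 𝕜 (Set.range e) := fun a => by
        rw [← lin]
        exact Submodule.sum_mem _ fun j _ => Submodule.smul_mem _ _
          (Submodule.subset_span ⟨⟨m, .inl j⟩, rfl⟩)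
      have a2 : ∀ n v, T m n v ∈ Submodule.span 𝕜 (Set.range e) := fun n v => by
        rw [← lin]
        exact Submodule.sum_mem _ fun w _ => Submodule.smul_mem _ _
          (Submodule.subset_span ⟨⟨m, .inr (n, w)⟩, rfl⟩)
      rw [← sub_add_cancel v (P m v), map_add]
      refine Submodule.add_mem _ (by simpa [T0, P2] using a2 n (v - P m v)) ?_
      cases n with
      | zero => exact a1 _
      | succ n => simpa [T0, P2] using a2 n (P m v)
    · rintro ⟨m, j⟩ ⟨m', j'⟩
      rcases eq_or_ne m m' with rfl | hm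
      · rcases j with v | ⟨n, w⟩ <;> rcases j' with v' | ⟨n', w'⟩
        · simp [f1, e, UU, Pi.single_apply, J]
        · simp [f1, e, UT, J]
        · simp [f2, e, TU, J]
        · simp only [f2, e, TT, Sum.elim_inr, J]
          by_cases c : n = n' <;> simp [c, Pi.single_apply]
      · rw [if_neg fun h => hm (congrArg Sigma.fst h)]
        rcases j with v | ⟨n, w⟩ <;> rcases j' with v' | ⟨n', w'⟩ <;>
          simp [f1, f2, e, U1, T1, U0, T0, s2 m m' _ _ _ hm, ap_zero]
    · rintro ⟨m, v | ⟨n, w⟩⟩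
      · simp only [e, Sum.elim_inl, U0, n2]
        linarith [(b m).up v]
      · simp only [e, Sum.elim_inr, T0]
        have a0 : En q (Pi.single w (1 : 𝕜) : W m → 𝕜) = 1 ^ q := by
          simp [En, Pi.single_apply, apply_ite, hq0.ne', ite_pow]
        have a1 := nrm_le_of hq.le k0 zero_le_one (a0 ▸ P5 m (Pi.single w 1))
        have a2 := nrm_le_of hq.le c1 zero_le_one (a0 ▸ P4 m (Pi.single w 1))
        refine (norm_add_le _ _).trans ?_
        rw [n2, n2]
        linarith
    · rintro ⟨m, v | ⟨n, w⟩⟩ x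
      · rw [f1, U1]
        have a1 := (nrm_le_iff hq0 _ (norm_nonneg _)).2 (n1 m 0 x)
        have a2 := ((b m).proj (res m 0 x)).trans (mul_le_mul_of_nonneg_left a1 (by linarith))
        refine (((b m).low _ v).trans (mul_le_mul_of_nonneg_left a2 (by linarith))).trans ?_
        rw [← mul_assoc]
        exact mul_le_mul_of_nonneg_right (by linarith) (norm_nonneg _)
      · rw [f2]
        refine le_of_rpow_le hq.le (by linarith) (norm_nonneg _) ((single_le_sum
          (f := fun w => ‖T' m n x w‖ ^ q) (fun _ _ => by positivity) (mem_univ w)).trans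
          ((n3 m n x).trans ?_))
        have a1 := mul_le_mul_of_nonneg_left (add_le_add (n1 m (n + 1) x) (n1 m n x))
          (show 0 ≤ K * K by linarith)
        have a2 := mul_le_mul_of_nonneg_right (show 2 * (K * K) ≤ 3 * D by linarith)
          (show 0 ≤ ‖x‖ ^ q by positivity)
        linarith
    · let lv : J → ℕ := fun j => j.1 + j.2.elim (fun _ => 0) Prod.fst
      obtain ⟨N, hN⟩ : ∃ N, ∀ j ∈ A, lv j < N :=
        ⟨A.sup lv + 1, fun j hj => Nat.lt_succ_of_le (le_sup hj)⟩
      let a : J → 𝕜 := cut A fun j => f j x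
      let F : Finset (ℕ × ℕ) := range N ×ˢ range N
      let F0 : Finset (ℕ × ℕ) := range N ×ˢ {0}
      let a0 : ∀ m, V m → 𝕜 := fun m v => a ⟨m, .inl v⟩
      let a1 : ∀ m : ℕ, ℕ → W m → 𝕜 := fun m n w => a ⟨m, .inr (n, w)⟩
      have e1 : ∑ j ∈ A, f j x • e j = ∑ c ∈ F0, emb c.1 (id c.2) (ap (I c.1) (a0 c.1)) +
          (∑ c ∈ F, emb c.1 (id c.2) (a1 c.1 c.2 - P c.1 (a1 c.1 c.2)) +
            ∑ c ∈ F, emb c.1 (Nat.succ c.2) (P c.1 (a1 c.1 c.2))) := by
        have hs : A ⊆ (range N).sigma fun m => univ.disjSum (range N ×ˢ univ) := by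
          rintro ⟨m, j⟩ hj
          have := hN _ hj
          refine mem_sigma.2 ⟨mem_range.2 (lt_of_le_of_lt (Nat.le_add_right _ _) this), ?_⟩
          rcases j with v | ⟨n, w⟩
          · exact inl_mem_disjSum.2 (mem_univ _)
          · exact inr_mem_disjSum.2 (mem_product.2
              ⟨mem_range.2 (lt_of_le_of_lt (Nat.le_add_left _ _) this), mem_univ _⟩)
        rw [sum_congr rfl (g := fun j => a j • e j) fun j hj => by simp only [a, cut, if_pos hj],
          sum_subset hs fun j _ hj => by simp only [a, cut, if_neg hj, zero_smul], sum_sigma,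
          ← sum_add_distrib, sum_product, sum_product, ← sum_add_distrib]
        refine sum_congr rfl fun m _ => ?_
        rw [sum_disjSum, sum_product, sum_singleton]
        congr 1
        · exact lin (U m) (a0 m)
        · exact sum_congr rfl fun n _ => lin (T m n) (a1 m n)
      have g0 : 0 ≤ ‖x‖ ^ q := by positivity
      have g1 : ∑ c ∈ F, En q (a1 c.1 c.2) ≤ 2 * (K * K) * ‖x‖ ^ q := by
        have r1 : ∀ c ∈ F, En q (a1 c.1 c.2) ≤
            K * K * (En q (res c.1 (c.2 + 1) x) + En q (res c.1 c.2 x)) := fun c _ => by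
          refine le_trans (sum_le_sum fun w _ => ?_) (n3 c.1 c.2 x)
          simp only [a1, a, cut]
          split_ifs
          · exact le_rfl
          · rw [norm_zero, Real.zero_rpow hq0.ne']; positivity
        refine (sum_le_sum r1).trans ?_
        rw [← mul_sum, sum_add_distrib]
        have := mul_le_mul_of_nonneg_left (add_le_add (s3 F Nat.succ Nat.succ_injective x)
          (s3 F id Function.injective_id x)) (show 0 ≤ K * K by linarith)
        exact this.trans (le_of_eq (by ring))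
      have g2 : ‖∑ c ∈ F0, emb c.1 (id c.2) (ap (I c.1) (a0 c.1))‖ ≤ D * ‖x‖ := by
        refine le_of_rpow_le hq.le d0 (norm_nonneg _) ?_
        rw [s4 F0 id Function.injective_id fun m _ => ap (I m) (a0 m)]
        have r1 : ∀ c ∈ F0, En q (ap (I c.1) (a0 c.1)) ≤ K * K * En q (res c.1 (id c.2) x) :=
          fun c hc => by
            have r2 : a0 c.1 = cut (univ.filter fun v => (⟨c.1, .inl v⟩ : J) ∈ A) (U' c.1 x) := by
              funext v; simp [a0, a, cut, f1]
            have r3 := up ((b c.1).gr (U' c.1 x) (univ.filter fun v => (⟨c.1, .inl v⟩ : J) ∈ A)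
              fun n hn k hk => hA _ (mem_filter.1 hn).2 _ fun h =>
                hk (mem_filter.2 ⟨mem_univ _, h⟩))
            rw [r2, id, mem_singleton.1 (mem_product.1 hc).2, mul_assoc]
            exact r3.trans (mul_le_mul k1 ((P4 _ _).trans (mul_le_mul_of_nonneg_right k1
              (En_nonneg _))) (En_nonneg _) (by linarith))
        refine (sum_le_sum r1).trans ?_
        rw [← mul_sum]
        exact mul_le_mul (by linarith) (s3 F0 id Function.injective_id x)
          (sum_nonneg fun _ _ => En_nonneg _) (by linarith)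
      have g5 : K * (2 * (K * K) * ‖x‖ ^ q) ≤ D * ‖x‖ ^ q := by
        have := mul_le_mul_of_nonneg_right (show 2 * (K * K * K) ≤ D by linarith) g0
        linarith
      have g3 : ‖∑ c ∈ F, emb c.1 (id c.2) (a1 c.1 c.2 - P c.1 (a1 c.1 c.2))‖ ≤ D * ‖x‖ := by
        refine le_of_rpow_le hq.le d0 (norm_nonneg _) ?_
        rw [s4 F id Function.injective_id fun m n => a1 m n - P m (a1 m n)]
        refine (sum_le_sum fun c _ => P5 _ _).trans ?_
        rw [← mul_sum]
        exact (mul_le_mul_of_nonneg_left g1 (by linarith)).trans g5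
      have g4 : ‖∑ c ∈ F, emb c.1 (Nat.succ c.2) (P c.1 (a1 c.1 c.2))‖ ≤ D * ‖x‖ := by
        refine le_of_rpow_le hq.le d0 (norm_nonneg _) ?_
        rw [s4 F Nat.succ Nat.succ_injective fun m n => P m (a1 m n)]
        refine (sum_le_sum fun c _ => (P4 _ _).trans
          (mul_le_mul_of_nonneg_right k1 (En_nonneg _))).trans ?_
        rw [← mul_sum]
        exact (mul_le_mul_of_nonneg_left g1 (by linarith)).trans g5
      rw [e1]
      refine (norm_add_le _ _).trans ((add_le_add le_rfl (norm_add_le _ _)).trans ?_)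
      linarith
    · obtain ⟨m, hm⟩ := exists_nat_ge M
      obtain ⟨s, hs, h⟩ := (b m).bad
      obtain ⟨N, hN⟩ := exists_time σ (fun v : V m => (⟨m, .inl v⟩ : J))
        (fun a b h => by simpa [J] using h) hs
      obtain ⟨a, ha⟩ := h _ hN
      refine ⟨N, U m a, ?_⟩
      have bi : ∀ (j : J) (v : V m), f j (U m (Pi.single v 1)) =
          if j = ⟨m, .inl v⟩ then 1 else 0 := by
        rintro ⟨m', j⟩ v
        rcases eq_or_ne m' m with rfl | hm
        · rcases j with v' | ⟨n, w⟩
          · simp [f1, UU, Pi.single_apply, J]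
          · simp [f2, TU, J]
        · rw [if_neg fun h => hm (congrArg Sigma.fst h)]
          rcases j with v | ⟨n, w⟩ <;> simp [f1, f2, U1, T1, U0, s2 m' m _ _ _ hm, ap_zero]
      have e1 : ∑ n ∈ range N, f (σ n) (U m a) • e (σ n) =
          U m (cut (univ.filter fun v => σ.symm (⟨m, .inl v⟩ : J) < N) a) := by
        rw [← lin (U m) a, ← lin (U m) (cut _ a)]
        simp only [map_sum, map_smul, bi, sum_smul]
        rw [sum_comm]
        refine sum_congr rfl fun v _ => ?_
        simp only [← σ.eq_symm_apply, smul_eq_mul, mul_ite, mul_one, mul_zero, ite_smul, zero_smul,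
          sum_ite_eq', mem_range, cut, mem_filter, mem_univ, true_and, Equiv.apply_symm_apply]
        rfl
      rw [e1, U0, U0, n2, n2]
      exact (mul_le_mul_of_nonneg_right hm (nrm_nonneg _)).trans_lt ha
  have : Infinite J := Infinite.of_injective (fun n : ℕ => (⟨0, .inr (n, hW.some)⟩ : J))
    fun a b h => by simpa [J] using h
  obtain ⟨σ⟩ : Nonempty (ℕ ≃ J) := nonempty_equiv_of_countable
  exact ⟨_, _, _, hM.reindex σ⟩

end Pool.Agent.Lib.MP_a2b538_an.LP
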